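import Mathlib

/-!
# Palindromes, periods and unioccurrent palindromic suffixes of functions on `ℕ`
-/

set_option autoImplicit false

namespace Pool.Agent.Q162.Epi

variable {γ : Type*}

/-- `f` restricted to `[s, n)` is a palindrome -/
def PalS (f : ℕ → γ) (s n : ℕ) : Prop := ∀ k, s ≤ k → k < n → f k = f (s + n - 1 - k)

/-- `[s, n)` is the longest palindromic suffix of `[0, n)` -/
def LPS (f : ℕ → γ) (n s : ℕ) : Prop := s ≤ n ∧ PalS f s n ∧ ∀ t < s, ¬ PalS f t n

/-- the word on `[s, n)` has no earlier occurrence -/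
def Uni (f : ℕ → γ) (n s : ℕ) : Prop := ∀ i < s, ¬ ∀ k < n - s, f (i + k) = f (s + k)

/-- all prefixes of length at most `N` have an unioccurrent palindromic suffix -/
def RichF (f : ℕ → γ) (N : ℕ) : Prop := ∀ n, 0 < n → n ≤ N → ∀ s, LPS f n s → Uni f n s

/-- `d` is a period of `f` on `[0, n)` -/
def Per (f : ℕ → γ) (n d : ℕ) : Prop := ∀ k, k + d < n → f (k + d) = f k

/-- `d` is the least positive period of `f` on `[0, n)` -/
def MinPer (f : ℕ → γ) (n d : ℕ) : Prop :=
  0 < d ∧ d ≤ n ∧ Per f n d ∧ ∀ e, 0 < e → e < d → ¬ Per f n e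

theorem lps_exists (f : ℕ → γ) (n : ℕ) : ∃ s, LPS f n s := by
  classical
  have h : ∃ s, s ≤ n ∧ PalS f s n := ⟨n, le_rfl, fun k h1 h2 => absurd h2 (not_lt.2 h1)⟩
  refine ⟨Nat.find h, (Nat.find_spec h).1, (Nat.find_spec h).2, fun t ht h2 => ?_⟩
  exact Nat.find_min h ht ⟨(ht.le.trans (Nat.find_spec h).1), h2⟩

theorem minPer_exists (f : ℕ → γ) {n : ℕ} (hn : 0 < n) : ∃ d, MinPer f n d := by
  classical
  have h : ∃ d, 0 < d ∧ Per f n d := ⟨n, hn, fun k hk => by omega⟩
  have h1 := Nat.find_spec h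
  have h2 : Nat.find h ≤ n := Nat.find_min' h ⟨hn, fun k hk => by omega⟩
  exact ⟨Nat.find h, h1.1, h2, h1.2, fun e he hlt hp => Nat.find_min h hlt ⟨he, hp⟩⟩

theorem lps_congr {f g : ℕ → γ} {n s : ℕ} (h : ∀ k < n, f k = g k) (hl : LPS f n s) : LPS g n s := by
  have key : ∀ t, PalS f t n ↔ PalS g t n := by
    intro t
    constructor
    · intro h1 k hk1 hk2
      rw [← h k hk2, ← h (t + n - 1 - k) (by omega)]
      exact h1 k hk1 hk2
    · intro h1 k hk1 hk2
      rw [h k hk2, h (t + n - 1 - k) (by omega)]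
      exact h1 k hk1 hk2
  exact ⟨hl.1, (key s).1 hl.2.1, fun t ht h2 => hl.2.2 t ht ((key t).2 h2)⟩

theorem lps_gap {f : ℕ → γ} {n s i : ℕ} (hl : LPS f n s) (hi : i < s)
    (ho : ∀ k < n - s, f (i + k) = f (s + k)) : i + (n - s) < s := by
  by_contra hcon
  push Not at hcon
  apply hl.2.2 i hi
  have hsn := hl.1
  have hp := hl.2.1
  have key : ∀ k, i ≤ k → k < i + (n - s) → f k = f (i + n - 1 - k) := by
    intro k hk1 hk2
    have h1 := ho (k - i) (by omega)
    rw [show i + (k - i) = k by omega] at h1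
    rw [h1, hp (s + (k - i)) (by omega) (by omega)]
    congr 1
    omega
  intro k hk1 hk2
  rcases lt_or_ge k (i + (n - s)) with h | h
  · exact key k hk1 h
  · have h1 := key (i + n - 1 - k) (by omega) (by omega)
    rw [h1]
    congr 1
    omega

theorem per_mod {f : ℕ → γ} {n d : ℕ} (hd : 0 < d) (h : Per f n d) :
    ∀ k < n, f k = f (k % d) := by
  intro k
  induction k using Nat.strong_induction_on with
  | _ k ih =>
    intro hk
    rcases lt_or_ge k d with h1 | h1
    · rw [Nat.mod_eq_of_lt h1]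
    · have h2 := h (k - d) (by omega)
      rw [show k - d + d = k by omega] at h2
      rw [h2, ih (k - d) (by omega) (by omega), Nat.mod_eq_sub_mod h1]

theorem per_of_mod {f g : ℕ → γ} {n d : ℕ} (h : ∀ k < n, f k = g (k % d)) : Per f n d := by
  intro k hk
  rw [h _ hk, h k (by omega), Nat.add_mod_right]

theorem per_lps {f : ℕ → γ} {n d e s : ℕ} (hp : Per f n d) (hd : 0 < d) (hde : d ≤ e) (hen : e ≤ n)
    (he : PalS f 0 e) (hl : LPS f n s) : s < d := by
  by_contra hcon
  push Not at hcon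
  have hmod := per_mod hd hp
  set t := (e + (d - 1) * n) % d with ht
  have htd : t < d := Nat.mod_lt _ hd
  have hcong : t + n ≡ e [MOD d] := by
    have h1 : t ≡ e + (d - 1) * n [MOD d] := Nat.mod_modEq _ _
    have h2 : t + n ≡ e + (d - 1) * n + n [MOD d] := h1.add_right n
    have h3 : e + (d - 1) * n + n = e + d * n := by
      obtain ⟨c, rfl⟩ : ∃ c, d = c + 1 := ⟨d - 1, by omega⟩
      simp only [Nat.add_sub_cancel]
      ring
    rw [h3] at h2
    refine h2.trans ?_
    have h4 : d * n ≡ 0 [MOD d] := (Nat.modEq_zero_iff_dvd).2 (dvd_mul_right d n)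
    have h5 := h4.add_left e
    rwa [Nat.add_zero] at h5
  apply hl.2.2 t (by omega)
  intro k hk1 hk2
  have hr : k % d < d := Nat.mod_lt _ hd
  rw [hmod k hk2, hmod (t + n - 1 - k) (by omega), he (k % d) (Nat.zero_le _) (by omega),
    hmod (0 + e - 1 - k % d) (by omega)]
  congr 1
  have h5 : (0 + e - 1 - k % d) + (k + 1) ≡ (t + n - 1 - k) + (k + 1) [MOD d] := by
    rw [show (t + n - 1 - k) + (k + 1) = t + n by omega]
    have h6 : (0 + e - 1 - k % d) + (k % d + 1) = e := by omega
    have h7 : (0 + e - 1 - k % d) + (k + 1) ≡ (0 + e - 1 - k % d) + (k % d + 1) [MOD d] :=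
      Nat.ModEq.add_left _ ((Nat.mod_modEq k d).symm.add_right 1)
    rw [h6] at h7
    exact h7.trans hcong.symm
  exact Nat.ModEq.add_right_cancel' (k + 1) h5

theorem fw {f : ℕ → γ} {n : ℕ} : ∀ N p q : ℕ, p + q ≤ N → 0 < p → 0 < q → p + q ≤ n →
    Per f n p → Per f n q → Per f n (Nat.gcd p q) := by
  intro N
  induction N with
  | zero => intro p q h hp; omega
  | succ N ih =>
    have aux : ∀ p q : ℕ, p + q ≤ N + 1 → 0 < p → p < q → p + q ≤ n →
        Per f n p → Per f n q → Per f n (Nat.gcd p q) := by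
      intro p q h hp hpq hn h1 h2
      have h3 : Per f n (q - p) := by
        intro k hk
        rcases lt_or_ge (k + q) n with h4 | h4
        · have h5 := h2 k h4
          have h6 := h1 (k + (q - p)) (by omega)
          rw [show k + (q - p) + p = k + q by omega] at h6
          rw [← h6, h5]
        · have h5 := h1 (k - p) (by omega)
          rw [show k - p + p = k by omega] at h5
          have h6 := h2 (k - p) (by omega)
          rw [show k - p + q = k + (q - p) by omega] at h6
          rw [h6, h5]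
      have h4 := ih p (q - p) (by omega) hp (by omega) (by omega) h1 h3
      rwa [Nat.gcd_sub_self_right hpq.le] at h4
    intro p q h hp hq hn h1 h2
    rcases lt_trichotomy p q with h3 | h3 | h3
    · exact aux p q h hp h3 hn h1 h2
    · subst h3
      rwa [Nat.gcd_self]
    · rw [Nat.gcd_comm]
      exact aux q p (by omega) hq h3 (by omega) h2 h1

theorem minPer_dvd {f : ℕ → γ} {n d e : ℕ} (hd : MinPer f n d) (he : 0 < e) (hp : Per f n e)
    (hn : d + e ≤ n) : d ∣ e := by
  have h1 := fw (d + e) d e le_rfl hd.1 he hn hd.2.2.1 hp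
  have h2 : 0 < Nat.gcd d e := Nat.gcd_pos_of_pos_left _ hd.1
  have h3 : ¬ Nat.gcd d e < d := fun h => hd.2.2.2 _ h2 h h1
  have h4 : Nat.gcd d e = d := le_antisymm (Nat.gcd_le_left _ hd.1) (not_lt.1 h3)
  rw [← h4]
  exact Nat.gcd_dvd_right d e

theorem minPer_le {f : ℕ → γ} {n d e : ℕ} (hd : MinPer f n d) (he : 0 < e) (hp : Per f n e) :
    d ≤ e := by
  by_contra h
  exact hd.2.2.2 e he (not_le.1 h) hp

theorem per_mono {f : ℕ → γ} {n n' d : ℕ} (h : Per f n d) (hn : n' ≤ n) : Per f n' d :=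
  fun k hk => h k (by omega)

/-- an occurrence of the prefix of length `ℓ` in a word with period `d`, `d` the least period of the
prefix, is at a multiple of `d` -/
theorem occ_mult {f : ℕ → γ} {ℓ N d i : ℕ} (hd : MinPer f ℓ d) (hp : Per f N d) (hi : i + ℓ ≤ N)
    (ho : ∀ k < ℓ, f (i + k) = f k) : d ∣ i := by
  by_contra hcon
  have h0 : i % d ≠ 0 := fun h => hcon (Nat.dvd_of_mod_eq_zero h)
  have h1 : i % d < d := Nat.mod_lt _ hd.1
  have hmod := per_mod hd.1 hp
  refine hd.2.2.2 (i % d) (Nat.pos_of_ne_zero h0) h1 fun k hk => ?_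
  have h2 := ho k (by omega)
  rw [← h2, hmod (k + i % d) (by omega), hmod (i + k) (by omega)]
  congr 1
  conv_rhs => rw [Nat.add_comm, Nat.add_mod]
  conv_lhs => rw [Nat.add_mod, Nat.mod_mod]

theorem palS_sub {f : ℕ → γ} {N n : ℕ} (h : PalS f 0 N) (h2 : n ≤ N) :
    PalS f (N - n) n := by
  intro k hk1 hk2
  rw [h k (Nat.zero_le _) (by omega)]
  congr 1
  omega

/-- a palindromic factor at its first occurrence is the longest palindromic suffix -/
theorem lps_of_first {f : ℕ → γ} {s L : ℕ} (hp : PalS f s (s + L))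
    (hf : ∀ i < s, ¬ ∀ k < L, f (i + k) = f (s + k)) : LPS f (s + L) s := by
  refine ⟨by omega, hp, fun t ht h => hf t ht fun k hk => ?_⟩
  rw [h (t + k) (by omega) (by omega), hp (s + k) (by omega) (by omega)]
  congr 1
  omega

end Pool.Agent.Q162.Epi
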