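import Pool.Agent.Q162.Epi.Word

/-!
# Desubstitution of episturmian words
-/

set_option autoImplicit false

namespace Pool.Agent.Q162.Epi

variable {α β : Type*}

/-- the factor of length `n` at position `i` -/
def fac (u : ℕ → α) (i n : ℕ) : List α := (List.range n).map fun k => u (i + k)

/-- the set of the factors -/
def Lang (u : ℕ → α) : Set (List α) := {w | ∃ i n, w = fac u i n}

/-- `w` is left special -/
def LeftSpecial (u : ℕ → α) (w : List α) : Prop :=
  ∃ a b, a ≠ b ∧ a :: w ∈ Lang u ∧ b :: w ∈ Lang u

/-- episturmian words -/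
def Episturmian (u : ℕ → α) : Prop :=
  (∀ w ∈ Lang u, w.reverse ∈ Lang u) ∧
  ∀ v w, LeftSpecial u v → LeftSpecial u w → v.length = w.length → v = w

@[simp] theorem length_fac (u : ℕ → α) (i n : ℕ) : (fac u i n).length = n := by
  simp [fac]

theorem fac_zero (u : ℕ → α) (i : ℕ) : fac u i 0 = [] := rfl

theorem fac_add (u : ℕ → α) (i m n : ℕ) : fac u i (m + n) = fac u i m ++ fac u (i + m) n := by
  simp only [fac]
  rw [List.range_add, List.map_append, List.map_map]
  congr 1
  apply List.map_congr_left
  intro k _
  simp only [Function.comp_apply, Nat.add_assoc]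

theorem fac_one (u : ℕ → α) (i : ℕ) : fac u i 1 = [u i] := by
  simp [fac, List.range_one]

theorem fac_succ (u : ℕ → α) (i n : ℕ) : fac u i (n + 1) = u i :: fac u (i + 1) n := by
  rw [Nat.add_comm n 1, fac_add, fac_one]
  rfl

theorem fac_succ' (u : ℕ → α) (i n : ℕ) : fac u i (n + 1) = fac u i n ++ [u (i + n)] := by
  rw [fac_add, fac_one]

theorem fac_mem (u : ℕ → α) (i n : ℕ) : fac u i n ∈ Lang u := ⟨i, n, rfl⟩

theorem Lang.sub {u : ℕ → α} {v w : List α} (h : v <:+: w) (hw : w ∈ Lang u) : v ∈ Lang u := by
  obtain ⟨s, t, rfl⟩ := h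
  obtain ⟨i, n, hn⟩ := hw
  have hlen := congrArg List.length hn
  rw [List.length_append, List.length_append, length_fac] at hlen
  rw [← hlen, fac_add, fac_add] at hn
  have h1 := List.append_inj_left hn (by simp)
  exact ⟨i + s.length, v.length, List.append_inj_right h1 (by simp)⟩

theorem lang_map (u : ℕ → α) (ζ : α → β) {w : List β} (h : w ∈ Lang (ζ ∘ u)) :
    ∃ v ∈ Lang u, w = v.map ζ := by
  obtain ⟨i, n, rfl⟩ := h
  refine ⟨fac u i n, fac_mem _ _ _, ?_⟩
  simp [fac, Function.comp_def]

/-- left special words depend only on the language -/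
theorem episturmian_congr {u v : ℕ → α} (h : Lang u = Lang v) (hu : Episturmian u) :
    Episturmian v := by
  unfold Episturmian LeftSpecial at hu ⊢
  rwa [h] at hu

theorem LeftSpecial.pref {u : ℕ → α} {v w : List α} (h : v <+: w) (hw : LeftSpecial u w) :
    LeftSpecial u v := by
  obtain ⟨a, b, hab, h1, h2⟩ := hw
  have h3 : ∀ c, c :: v <:+: c :: w := fun c => (List.prefix_cons_inj c |>.2 h).isInfix
  exact ⟨a, b, hab, Lang.sub (h3 a) h1, Lang.sub (h3 b) h2⟩

/-- the letters of a factor of length two -/
theorem pair_mem {u : ℕ → α} {x y : α} (h : [x, y] ∈ Lang u) : ∃ i, u i = x ∧ u (i + 1) = y := by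
  obtain ⟨i, n, hn⟩ := h
  have hlen := congrArg List.length hn
  rw [length_fac] at hlen
  obtain rfl : n = 2 := by simpa using hlen.symm
  rw [fac_succ, fac_succ, fac_zero] at hn
  simp only [List.cons.injEq, and_true] at hn
  exact ⟨i, hn.1.symm, hn.2.symm⟩

/-- the separating letter -/
theorem exists_sep {u : ℕ → α} (hu : Episturmian u) : ∃ a, ∀ i, u i = a ∨ u (i + 1) = a := by
  have hpair : ∀ i, [u i, u (i + 1)] ∈ Lang u := fun i =>
    ⟨i, 2, by rw [fac_succ, fac_succ, fac_zero]⟩
  have hpair' : ∀ i, [u (i + 1), u i] ∈ Lang u := fun i => hu.1 _ (hpair i)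
  have hsymm : ∀ x y, [x, y] ∈ Lang u → [y, x] ∈ Lang u := fun x y h => hu.1 _ h
  by_cases hls : ∃ a, LeftSpecial u [a]
  · obtain ⟨a, ha⟩ := hls
    refine ⟨a, fun i => ?_⟩
    by_contra hcon
    push Not at hcon
    obtain ⟨h1, h2⟩ := hcon
    -- unique left neighbours
    have huniq : ∀ z, z ≠ a → ∀ b c, [b, z] ∈ Lang u → [c, z] ∈ Lang u → b = c := by
      intro z hz b c hb hc
      by_contra hbc
      have h3 := hu.2 [z] [a] ⟨b, c, hbc, hb, hc⟩ ha rfl
      exact hz (List.cons.inj h3).1
    have hx : ∀ c, [c, u i] ∈ Lang u → c = u (i + 1) := fun c hc =>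
      huniq _ h1 _ _ hc (hpair' i)
    have hy : ∀ c, [c, u (i + 1)] ∈ Lang u → c = u i := fun c hc =>
      huniq _ h2 _ _ hc (hpair i)
    have hfw : ∀ j, u (i + j) = u i ∨ u (i + j) = u (i + 1) := by
      intro j
      induction j with
      | zero => left; rfl
      | succ j ih =>
        have h4 := hpair' (i + j)
        rcases ih with h3 | h3
        · right
          rw [h3] at h4
          exact hx _ h4
        · left
          rw [h3] at h4
          exact hy _ h4
    have hbw : ∀ j, j ≤ i → u (i - j) = u i ∨ u (i - j) = u (i + 1) := by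
      intro j
      induction j with
      | zero => intro _; left; rfl
      | succ j ih =>
        intro hj
        have h4 := hpair (i - (j + 1))
        rw [show i - (j + 1) + 1 = i - j by omega] at h4
        rcases ih (by omega) with h3 | h3
        · right
          rw [h3] at h4
          exact hx _ h4
        · left
          rw [h3] at h4
          exact hy _ h4
    obtain ⟨b, _, _, h3, _⟩ := ha
    obtain ⟨j, -, hj⟩ := pair_mem h3
    have h5 : u (j + 1) = u i ∨ u (j + 1) = u (i + 1) := by
      rcases le_total i (j + 1) with h6 | h6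
      · have h7 := hfw (j + 1 - i)
        rwa [show i + (j + 1 - i) = j + 1 by omega] at h7
      · have h7 := hbw (i - (j + 1)) (by omega)
        rwa [show i - (i - (j + 1)) = j + 1 by omega] at h7
    rw [hj] at h5
    rcases h5 with h5 | h5
    · exact h1 h5.symm
    · exact h2 h5.symm
  · have huniq : ∀ z b c, [b, z] ∈ Lang u → [c, z] ∈ Lang u → b = c := by
      intro z b c hb hc
      by_contra hbc
      exact hls ⟨z, b, c, hbc, hb, hc⟩
    have hper : ∀ j, u (j + 2) = u j := fun j => huniq _ _ _ (hpair' (j + 1)) (hpair j)
    have heven : ∀ j, u (2 * j) = u 0 := by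
      intro j
      induction j with
      | zero => rfl
      | succ j ih => rw [show 2 * (j + 1) = 2 * j + 2 by ring, hper, ih]
    refine ⟨u 0, fun i => ?_⟩
    rcases Nat.even_or_odd' i with ⟨j, rfl | rfl⟩
    · left; exact heven j
    · right; exact heven (j + 1)

/-- the morphism `ψ_a` -/
def psi [DecidableEq α] (a x : α) : List α := if x = a then [a] else [a, x]

section
variable [DecidableEq α]

/-- the image of `w` followed by `a` -/
def img (a : α) (w : List α) : List α := w.flatMap (psi a) ++ [a]

theorem img_nil (a : α) : img a [] = [a] := rfl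

theorem img_cons (a x : α) (w : List α) : img a (x :: w) = psi a x ++ img a w := by
  simp [img, List.flatMap_cons]

theorem img_head (a : α) (w : List α) : ∃ r, img a w = a :: r := by
  cases w with
  | nil => exact ⟨[], rfl⟩
  | cons x w =>
    rw [img_cons, psi]
    split_ifs
    · exact ⟨_, rfl⟩
    · exact ⟨_, rfl⟩

theorem img_append (a : α) (v w : List α) : img a (v ++ w) = v.flatMap (psi a) ++ img a w := by
  simp [img, List.flatMap_append]

theorem img_reverse (a : α) (w : List α) : (img a w).reverse = img a w.reverse := by
  induction w with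
  | nil => rfl
  | cons x w ih =>
    rw [img_cons, List.reverse_append, ih, List.reverse_cons, img_append, img_cons, img_nil, img,
      List.append_assoc]
    congr 1
    rw [psi]
    split_ifs with h
    · simp
    · simp

theorem prefix_of_img {a : α} : ∀ {v w : List α}, img a v <+: img a w → v <+: w := by
  intro v
  induction v with
  | nil => exact fun _ => List.nil_prefix
  | cons x v ih =>
    intro w h
    obtain ⟨r, hr⟩ := img_head a v
    cases w with
    | nil =>
      exfalso
      have h1 := h.length_le
      rw [img_cons, hr, img_nil, List.length_append] at h1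
      have h2 : 1 ≤ (psi a x).length := by
        rw [psi]; split_ifs <;> simp
      simp only [List.length_cons, List.length_nil] at h1
      omega
    | cons y w =>
      obtain ⟨r', hr'⟩ := img_head a w
      have hxy : x = y ∧ img a v <+: img a w := by
        rw [img_cons, img_cons, psi, psi] at h
        split_ifs at h with hx hy hy
        · exact ⟨hx.trans hy.symm, by simpa [List.cons_prefix_cons] using h⟩
        · exfalso
          rw [hr] at h
          simp only [List.cons_append, List.nil_append, List.cons_prefix_cons, true_and] at h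
          exact hy h.1.symm
        · exfalso
          rw [hr'] at h
          simp only [List.cons_append, List.nil_append, List.cons_prefix_cons, true_and] at h
          exact hx h.1
        · simp only [List.cons_append, List.nil_append, List.cons_prefix_cons, true_and] at h
          exact h
      rw [hxy.1]
      exact List.prefix_cons_inj y |>.2 (ih hxy.2)

/-- the positions of the blocks -/
def pos (a : α) (v : ℕ → α) : ℕ → ℕ
  | 0 => 0
  | k + 1 => pos a v k + (psi a (v (pos a v k + 1))).length

/-- the desubstituted word -/
def des (a : α) (v : ℕ → α) (k : ℕ) : α := v (pos a v k + 1)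

variable {a : α} {v : ℕ → α}

theorem pos_succ (a : α) (v : ℕ → α) (k : ℕ) :
    pos a v (k + 1) = pos a v k + (psi a (des a v k)).length := rfl

theorem v_pos (h0 : v 0 = a) (hs : ∀ i, v i = a ∨ v (i + 1) = a) (k : ℕ) : v (pos a v k) = a := by
  induction k with
  | zero => exact h0
  | succ k ih =>
    rw [pos_succ, psi]
    split_ifs with h
    · exact h
    · exact (hs (pos a v k + 1)).resolve_left h

theorem le_pos (k : ℕ) : k ≤ pos a v k := by
  induction k with
  | zero => exact le_rfl
  | succ k ih =>
    rw [pos_succ, psi]
    split_ifs <;> simp only [List.length_cons, List.length_nil] <;> omega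

theorem fac_block (h0 : v 0 = a) (hs : ∀ i, v i = a ∨ v (i + 1) = a) (k : ℕ) :
    fac v (pos a v k) (psi a (des a v k)).length = psi a (des a v k) := by
  have h1 := v_pos h0 hs k
  rw [psi]
  split_ifs with h
  · rw [show ([a] : List α).length = 1 from rfl, fac_one, h1]
  · rw [show ([a, des a v k] : List α).length = 2 from rfl, fac_succ, fac_one, h1]
    rfl

/-- the image of a factor of the desubstituted word -/
theorem fac_img (h0 : v 0 = a) (hs : ∀ i, v i = a ∨ v (i + 1) = a) (n : ℕ) :
    ∀ k, fac v (pos a v k) (img a (fac (des a v) k n)).length = img a (fac (des a v) k n) := by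
  induction n with
  | zero =>
    intro k
    rw [fac_zero, img_nil, show ([a] : List α).length = 1 from rfl, fac_one, v_pos h0 hs]
  | succ n ih =>
    intro k
    rw [fac_succ, img_cons, List.length_append, fac_add, fac_block h0 hs, ← pos_succ, ih]

theorem fac_flat (h0 : v 0 = a) (hs : ∀ i, v i = a ∨ v (i + 1) = a) (n : ℕ) :
    ∀ k, (fac (des a v) k n).flatMap (psi a) = fac v (pos a v k) (pos a v (k + n) - pos a v k) := by
  induction n with
  | zero =>
    intro k
    simp [fac_zero]
  | succ n ih =>
    intro k
    have h1 : ∀ j i, pos a v j ≤ pos a v (j + i) := by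
      intro j i
      induction i with
      | zero => exact le_rfl
      | succ i ih2 =>
        rw [← Nat.add_assoc, pos_succ]
        omega
    have h2 := h1 (k + 1) n
    have h3 := pos_succ a v k
    rw [fac_succ, List.flatMap_cons, ih (k + 1), show k + (n + 1) = k + 1 + n by ring]
    rw [show pos a v (k + 1 + n) - pos a v k = (psi a (des a v k)).length +
      (pos a v (k + 1 + n) - pos a v (k + 1)) by omega, fac_add, fac_block h0 hs, ← pos_succ]

/-- every `a` starts a block -/
theorem exists_pos (h0 : v 0 = a) (hs : ∀ i, v i = a ∨ v (i + 1) = a) :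
    ∀ i, v i = a → ∃ k, pos a v k = i := by
  intro i
  induction i using Nat.strong_induction_on with
  | _ i ih =>
    intro hi
    rcases Nat.eq_zero_or_pos i with rfl | hi0
    · exact ⟨0, rfl⟩
    by_cases h1 : v (i - 1) = a
    · obtain ⟨k, hk⟩ := ih (i - 1) (by omega) h1
      refine ⟨k + 1, ?_⟩
      rw [pos_succ, des, psi, hk, show i - 1 + 1 = i by omega, if_pos hi]
      simp only [List.length_cons, List.length_nil]
      omega
    · have h2 : i ≠ 1 := by
        rintro rfl
        exact h1 h0
      have h3 : v (i - 2) = a := by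
        rcases hs (i - 2) with h4 | h4
        · exact h4
        · rw [show i - 2 + 1 = i - 1 by omega] at h4
          exact absurd h4 h1
      obtain ⟨k, hk⟩ := ih (i - 2) (by omega) h3
      refine ⟨k + 1, ?_⟩
      rw [pos_succ, des, psi, hk, show i - 2 + 1 = i - 1 by omega, if_neg h1]
      simp only [List.length_cons, List.length_nil]
      omega

/-- recognizability -/
theorem des_of_img : ∀ (w : List α) (k : ℕ),
    fac v (pos a v k) (img a w).length = img a w → w = fac (des a v) k w.length := by
  intro w
  induction w with
  | nil => exact fun _ _ => rfl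
  | cons x w ih =>
    intro k h
    obtain ⟨r, hr⟩ := img_head a w
    have hx : des a v k = x := by
      rw [img_cons, psi] at h
      split_ifs at h with hx
      · rw [hr, List.length_append] at h
        change fac v (pos a v k) (1 + (r.length + 1)) = _ at h
        rw [show 1 + (r.length + 1) = r.length + 1 + 1 by omega, fac_succ, fac_succ] at h
        simp only [List.cons_append, List.nil_append, List.cons.injEq] at h
        rw [hx]
        exact h.2.1
      · rw [List.length_append,
          show ([a, x] : List α).length + (img a w).length = (img a w).length + 1 + 1 by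
            simp only [List.length_cons, List.length_nil]; omega, fac_succ, fac_succ] at h
        simp only [List.cons_append, List.nil_append, List.cons.injEq] at h
        exact h.2.1
    have h2 : fac v (pos a v (k + 1)) (img a w).length = img a w := by
      rw [img_cons, List.length_append, fac_add] at h
      have h3 := List.append_inj_right h (by simp)
      rw [pos_succ, hx]
      exact h3
    have h4 := ih (k + 1) h2
    rw [List.length_cons, fac_succ, hx, ← h4]

theorem mem_des (h0 : v 0 = a) (hs : ∀ i, v i = a ∨ v (i + 1) = a) {w : List α} :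
    w ∈ Lang (des a v) ↔ img a w ∈ Lang v := by
  constructor
  · rintro ⟨k, n, rfl⟩
    exact ⟨_, _, (fac_img h0 hs n k).symm⟩
  · rintro ⟨i, n, hn⟩
    have hlen := congrArg List.length hn
    rw [length_fac] at hlen
    subst hlen
    obtain ⟨r, hr⟩ := img_head a w
    have hi : v i = a := by
      rw [hr, List.length_cons, fac_succ] at hn
      exact (List.cons.inj hn).1.symm
    obtain ⟨k, rfl⟩ := exists_pos h0 hs i hi
    exact ⟨k, _, des_of_img w k hn.symm⟩

theorem episturmian_des (h0 : v 0 = a) (hs : ∀ i, v i = a ∨ v (i + 1) = a) (hv : Episturmian v) :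
    Episturmian (des a v) := by
  have hls : ∀ w, LeftSpecial (des a v) w → LeftSpecial v (img a w) := by
    rintro w ⟨b, c, hbc, h1, h2⟩
    have key : ∀ b, b :: w ∈ Lang (des a v) → b :: img a w ∈ Lang v := by
      intro b hb
      have h3 := (mem_des h0 hs).1 hb
      refine Lang.sub ?_ h3
      rw [img_cons, psi]
      split_ifs with h4
      · rw [h4]
        exact List.infix_rfl
      · exact (List.suffix_cons a _).isInfix
    exact ⟨b, c, hbc, key b h1, key c h2⟩
  refine ⟨fun w hw => ?_, fun w1 w2 h1 h2 hlen => ?_⟩
  · rw [mem_des h0 hs, ← img_reverse]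
    exact hv.1 _ ((mem_des h0 hs).1 hw)
  · have key : ∀ w1 w2, LeftSpecial (des a v) w1 → LeftSpecial (des a v) w2 →
        w1.length = w2.length → (img a w1).length ≤ (img a w2).length → w1 = w2 := by
      intro w1 w2 h1 h2 hlen hle
      have h3 := hls _ h1
      have h4 := (hls _ h2).pref (List.take_prefix (img a w1).length (img a w2))
      have h5 := hv.2 _ _ h3 h4 (by rw [List.length_take, Nat.min_eq_left hle])
      have h6 : img a w1 <+: img a w2 := by
        rw [h5]
        exact List.take_prefix _ _
      exact (prefix_of_img h6).eq_of_length hlen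
    rcases le_total (img a w1).length (img a w2).length with h3 | h3
    · exact key w1 w2 h1 h2 hlen h3
    · exact (key w2 w1 h2 h1 hlen.symm h3).symm

/-- desubstitution -/
theorem desub {u : ℕ → α} (hu : Episturmian u) : ∃ (a : α) (u' : ℕ → α), Episturmian u' ∧
    ∀ w ∈ Lang u, ∃ w' ∈ Lang u', w <:+: w'.flatMap (psi a) := by
  obtain ⟨a, ha⟩ := exists_sep hu
  obtain ⟨v, hv0, hvs, hvl⟩ : ∃ v : ℕ → α, v 0 = a ∧ (∀ i, v i = a ∨ v (i + 1) = a) ∧
      Lang u = Lang v := by
    by_cases h0 : u 0 = a
    · exact ⟨u, h0, ha, rfl⟩
    refine ⟨fun k => if k = 0 then a else u (k - 1), if_pos rfl, fun i => ?_, ?_⟩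
    · rcases Nat.eq_zero_or_pos i with rfl | hi
      · left; exact if_pos rfl
      · simp only [if_neg hi.ne', if_neg (Nat.succ_ne_zero i), Nat.add_sub_cancel]
        have h1 := ha (i - 1)
        rwa [show i - 1 + 1 = i by omega] at h1
    · have hshift : ∀ i n, fac (fun k => if k = 0 then a else u (k - 1)) (i + 1) n = fac u i n := by
        intro i n
        simp only [fac]
        apply List.map_congr_left
        intro k _
        simp only [if_neg (show i + 1 + k ≠ 0 by omega)]
        congr 1
        omega
      ext w
      constructor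
      · rintro ⟨i, n, rfl⟩
        exact ⟨i + 1, n, (hshift i n).symm⟩
      · rintro ⟨i, n, rfl⟩
        rcases Nat.eq_zero_or_pos i with rfl | hi
        · rcases n with _ | n
          · exact ⟨0, 0, rfl⟩
          · rw [fac_succ, if_pos rfl, hshift]
            -- `a` can be put in front of every prefix
            have h1 := hu.1 _ (fac_mem u 0 (n + 1))
            obtain ⟨j, n', hj⟩ := h1
            have hlen := congrArg List.length hj
            rw [List.length_reverse, length_fac, length_fac] at hlen
            subst hlen
            have h2 := hu.1 _ (fac_mem u j (n + 1 + 1))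
            rw [fac_succ', ← hj, List.reverse_append, List.reverse_reverse] at h2
            have h3 : [u (j + (n + 1)), u 0] ∈ Lang u := by
              refine Lang.sub ?_ h2
              rw [fac_succ]
              exact ⟨[], fac u (0 + 1) n, by simp⟩
            obtain ⟨i, hi1, hi2⟩ := pair_mem h3
            have h4 : u i = a := by
              rcases ha i with h5 | h5
              · exact h5
              · rw [hi2] at h5
                exact absurd h5 h0
            rw [← hi1, h4] at h2
            refine Lang.sub ?_ h2
            rw [fac_succ']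
            exact ⟨[], [u (0 + n)], by simp⟩
        · refine ⟨i - 1, n, ?_⟩
          rw [← hshift (i - 1) n, show i - 1 + 1 = i by omega]
  have hv := episturmian_congr hvl hu
  refine ⟨a, des a v, episturmian_des hv0 hvs hv, fun w hw => ?_⟩
  rw [hvl] at hw
  obtain ⟨i, n, rfl⟩ := hw
  refine ⟨fac (des a v) 0 (i + n), fac_mem _ _ _, ?_⟩
  rw [fac_flat hv0 hvs]
  have h1 := le_pos (a := a) (v := v) (i + n)
  have h2 : pos a v (0 + (i + n)) - pos a v 0 = i + (n + (pos a v (i + n) - (i + n))) := by
    rw [Nat.zero_add, show pos a v 0 = 0 from rfl]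
    omega
  rw [h2, fac_add, fac_add]
  refine ⟨fac v (pos a v 0) i, fac v (pos a v 0 + i + n) (pos a v (i + n) - (i + n)), ?_⟩
  rw [show pos a v 0 + i = i from Nat.zero_add i, List.append_assoc]

end

theorem flatMap_single (ζ : α → β) (w : List α) : w.flatMap (fun x => [ζ x]) = w.map ζ := by
  induction w with
  | nil => rfl
  | cons x w ih => rw [List.flatMap_cons, ih, List.map_cons, List.singleton_append]

/-- every factor of a projected episturmian word is a factor of the image of a word by a state -/
theorem exists_reach (ζ : α → β) {u : ℕ → α} (hu : Episturmian u) (n : ℕ) :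
    ∃ (p : List β) (F : α → List β) (u' : ℕ → α), Reach ζ n p F ∧ Episturmian u' ∧
      ∀ w ∈ Lang u, ∃ w' ∈ Lang u', w.map ζ <:+: w'.flatMap F := by
  classical
  induction n with
  | zero =>
    refine ⟨[], fun x => [ζ x], u, Reach.init, hu, fun w hw => ⟨w, hw, ?_⟩⟩
    rw [flatMap_single]
  | succ n ih =>
    obtain ⟨p, F, u', hR, hu', hw⟩ := ih
    obtain ⟨a, u'', hu'', hw'⟩ := desub hu'
    refine ⟨F a ++ p, fun x => (psi a x).flatMap F, u'',
      Reach.step n p F _ a hR (by simp [psi]) (fun x hx => by simp [psi, hx]), hu'',
      fun w h1 => ?_⟩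
    obtain ⟨w1, h2, h3⟩ := hw w h1
    obtain ⟨w2, h4, h5⟩ := hw' w1 h2
    refine ⟨w2, h4, h3.trans ?_⟩
    obtain ⟨s, t, hst⟩ := h5
    have h6 : w2.flatMap (fun x => (psi a x).flatMap F) = (w2.flatMap (psi a)).flatMap F := by
      rw [List.flatMap_assoc]
    rw [h6, ← hst, List.flatMap_append, List.flatMap_append]
    exact ⟨_, _, rfl⟩

/-- **Projections of episturmian words are rich.** -/
theorem main (ζ : α → β) {u : ℕ → α} (hu : Episturmian u) {w : List β} (hw : w ∈ Lang (ζ ∘ u)) :
    (palSet w).ncard = w.length + 1 := by
  obtain ⟨v, hv, rfl⟩ := lang_map u ζ hw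
  obtain ⟨p, F, u', hR, -, h1⟩ := exists_reach ζ hu v.length
  obtain ⟨w', -, h2⟩ := h1 v hv
  have h3 := hR.length
  rcases hR.window (by rw [List.length_map]; omega) w' h2 with h4 | ⟨x, h4⟩
  · rw [h4, palSet_nil, Set.ncard_singleton]
    rfl
  · exact rich_infix h4 (hR.rich x)

end Pool.Agent.Q162.Epi
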