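import Pool.Agent.Q162.Epi.P3

/-!
# The second invariant for the next state
-/

set_option autoImplicit false

namespace Pool.Agent.Q162.Epi

variable {α γ : Type*} {a : α} {ℓ ℓ' : ℕ} {m m' : α → ℕ} {q q' : α → ℕ → γ}

/-- the word `w` of length `L` occurs in a common prefix of `q x` and `q y` -/
def Tgt (ℓ : ℕ) (m : α → ℕ) (q : α → ℕ → γ) (x y : α) (L : ℕ) (w : ℕ → γ) : Prop :=
  ∃ j H, j + L ≤ H ∧ H ≤ m x + ℓ ∧ H ≤ m y + ℓ ∧ (∀ k < H, q x k = q y k) ∧
    ∀ k < L, q x (j + k) = w k

theorem Tgt.symm {x y : α} {L : ℕ} {w : ℕ → γ} (h : Tgt ℓ m q x y L w) : Tgt ℓ m q y x L w := by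
  obtain ⟨j, H, h1, h2, h3, h4, h5⟩ := h
  exact ⟨j, H, h1, h3, h2, fun k hk => (h4 k hk).symm,
    fun k hk => by rw [← h4 _ (by omega)]; exact h5 k hk⟩

theorem Step.typ (st : Step a ℓ m q ℓ' m' q') (h : Good ℓ m q) {x : α} {n s : ℕ}
    (hn : m a + ℓ < n) (hn2 : n ≤ m' x + ℓ') (hl : LPS (q' x) n s) :
    s < m a ∨ (x ≠ a ∧ m a ≤ s ∧ n ≤ m a + m x + ℓ) := by
  by_contra hcon
  push Not at hcon
  obtain ⟨h1, h2⟩ := hcon
  have h4 := palS_sub (st.pal h x) hn2
  apply hl.2.2 (m' x + ℓ' - n) ?_ h4
  rcases eq_or_ne x a with rfl | hx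
  · rw [st.hl, st.hma] at hn2 ⊢
    omega
  · have h3 := h2 hx h1
    rw [st.hl, st.hm x hx] at hn2 ⊢
    omega

theorem Step.le_len (st : Step a ℓ m q ℓ' m' q') (x : α) : m a + ℓ ≤ m' x + ℓ' := by
  rw [st.hl]
  omega

/-- type A for `x`, type B for `y` -/
theorem Step.caseAB (st : Step a ℓ m q ℓ' m' q') (h : Good ℓ m q) {x y : α} {sx sy L : ℕ}
    (hx : x ≠ a) (hsx : m a ≤ sx) (hex : sx + L ≤ m a + m x + ℓ)
    (hsy : sy < m a) (hey : m a + ℓ < sy + L) (hby : sy + L ≤ m' y + ℓ')
    (heq : ∀ k < L, q' x (sx + k) = q' y (sy + k)) :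
    Tgt ℓ' m' q' x y L (fun k => q' y (sy + k)) := by
  have hqx : ∀ k, k < L → q x (sx - m a + k) = q' y (sy + k) := by
    intro k hk
    rw [← st.c2 x hx _ (by omega), show m a + (sx - m a + k) = sx + k by omega]
    exact heq k hk
  have hocc : ∀ k < ℓ, q x (sx - m a + (m a - sy) + k) = q x k := by
    intro k hk
    rw [Nat.add_assoc, hqx _ (by omega), show sy + (m a - sy + k) = m a + k by omega,
      st.c1 y _ (by omega), h.suf a k hk, h.pre a x k hk]
  have hmx : 1 < m x := by omega
  have hℓ : 0 < ℓ := by have := h.le x; omega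
  obtain ⟨d, hd⟩ := minPer_exists (q x) hℓ
  have hper := h.p3 x _ (by omega) (by omega) hocc d hd
  have hd0 := hd.1
  have hdl := hd.2.1
  have hmod := per_mod hd0 hper
  -- on `[m a, sy + L)` the word `q' y` continues the period
  have hy : ∀ k, k < sy + L - m a → q' y (m a + k) = q x (k % d) := by
    have hpy : ∀ k, k + d < sy + L - m a → q' y (m a + (k + d)) = q' y (m a + k) := by
      intro k hk
      have h1 := hqx (m a - sy + k) (by omega)
      have h2 := hqx (m a - sy + k + d) (by omega)
      rw [show sy + (m a - sy + k) = m a + k by omega] at h1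
      rw [show sy + (m a - sy + k + d) = m a + (k + d) by omega] at h2
      rw [← h1, ← h2, ← Nat.add_assoc]
      exact hper _ (by omega)
    have h3 := per_mod (f := fun k => q' y (m a + k)) hd0 hpy
    intro k hk
    have h4 : k % d < d := Nat.mod_lt _ hd0
    have h5 : q' y (m a + k) = q' y (m a + k % d) := h3 k hk
    rw [h5, st.c1 y _ (by omega), h.suf a _ (by omega), h.pre a x _ (by omega)]
  refine ⟨sy, sy + L, le_rfl, ?_, hby, ?_, ?_⟩
  · rw [st.hl, st.hm x hx]
    omega
  · intro k hk
    rcases lt_or_ge k (m a) with h1 | h1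
    · rw [st.c1 x _ (by omega), st.c1 y _ (by omega)]
    · have h2 := st.c2 x hx (k - m a) (by omega)
      have h3 := hy (k - m a) (by omega)
      rw [show m a + (k - m a) = k by omega] at h2 h3
      rw [h2, h3]
      exact hmod _ (by omega)
  · intro k hk
    rcases lt_or_ge (sy + k) (m a) with h1 | h1
    · change q' x (sy + k) = q' y (sy + k)
      rw [st.c1 x _ (by omega), st.c1 y _ (by omega)]
    · change q' x (sy + k) = q' y (sy + k)
      have h2 := st.c2 x hx (sy + k - m a) (by omega)
      have h3 := hy (sy + k - m a) (by omega)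
      rw [show m a + (sy + k - m a) = sy + k by omega] at h2 h3
      rw [h2, h3]
      exact hmod _ (by omega)

/-- type B for both, different offsets -/
theorem Step.caseBB (st : Step a ℓ m q ℓ' m' q') (h : Good ℓ m q) {x y : α} {sx sy L : ℕ}
    (hsxy : sx < sy) (hsy : sy < m a) (hex : m a + ℓ < sx + L) (hbx : sx + L ≤ m' x + ℓ')
    (hby : sy + L ≤ m' y + ℓ') (heq : ∀ k < L, q' x (sx + k) = q' y (sy + k)) :
    Tgt ℓ' m' q' x y L (fun k => q' x (sx + k)) := by
  have hocc : ∀ k < ℓ, q a (m a - (sy - sx) + k) = q a k := by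
    intro k hk
    have h1 := heq (m a - sy + k) (by omega)
    rw [show sy + (m a - sy + k) = m a + k by omega, st.c1 y _ (by omega), h.suf a k hk,
      st.c1 x _ (by omega)] at h1
    rw [← h1]
    congr 1
    omega
  have hℓ : 0 < ℓ := by have := h.le a; omega
  obtain ⟨d, hd⟩ := minPer_exists (q a) hℓ
  have hpa := h.p3 a _ (by omega) (by omega) hocc d hd
  have hd0 := hd.1
  have hdl := hd.2.1
  have hdv1 : d ∣ m a - (sy - sx) := occ_mult hd hpa (by omega) hocc
  have hdv2 : d ∣ m a := occ_mult hd hpa le_rfl (fun k hk => h.suf a k hk)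
  have hΔ : d ≤ sy - sx := by
    have h1 : d ∣ m a - (m a - (sy - sx)) := Nat.dvd_sub hdv2 hdv1
    rw [show m a - (m a - (sy - sx)) = sy - sx by omega] at h1
    exact Nat.le_of_dvd (by omega) h1
  -- the word has period `d`
  have hw : ∀ k, k + d < L → q' x (sx + (k + d)) = q' x (sx + k) := by
    intro k
    induction k using Nat.strong_induction_on with
    | _ k ih =>
      intro hk
      rcases lt_or_ge (sx + (k + d)) (m a + ℓ) with h1 | h1
      · rw [st.c1 x _ h1, st.c1 x _ (by omega), ← Nat.add_assoc]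
        exact hpa _ (by omega)
      have hpy : Per (q' y) (sy + (k + d)) d := by
        intro t ht
        rcases lt_or_ge (t + d) (m a + ℓ) with h2 | h2
        · rw [st.c1 y _ h2, st.c1 y _ (by omega)]
          exact hpa _ h2
        · have h3 := ih (t - sy) (by omega) (by omega)
          rw [heq _ (by omega), heq _ (by omega), show sy + (t - sy + d) = t + d by omega,
            show sy + (t - sy) = t by omega] at h3
          exact h3
      have hall : Per (q' y) (m' y + ℓ') d := by
        rcases eq_or_ne y a with rfl | hy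
        · exact st.perAll hdl hpa hpa
        have hshort : ∀ t, t + d < m y + ℓ → m a + t + d < sy + (k + d) →
            q y (t + d) = q y t := by
          intro t ht1 ht2
          rw [← st.c2 y hy _ ht1, ← st.c2 y hy _ (by omega), ← Nat.add_assoc]
          exact hpy _ ht2
        have hpq : Per (q y) (m y + ℓ) d := by
          rcases le_or_gt (m a + (m y + ℓ)) (sy + (k + d)) with h2 | h2
          · intro t ht
            exact hshort t ht (by omega)
          · apply h.p3 y d hd0 (by omega) ?_ d (h.minPer_congr hd)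
            intro t ht
            rw [Nat.add_comm]
            exact hshort t (by omega) (by omega)
        exact st.perAll hdl hpa hpq
      rw [heq _ (by omega), heq _ (by omega), ← Nat.add_assoc]
      exact hall _ (by omega)
  have hex' : ∀ k < sx + L, q' x k = q a (k % d) := by
    have hpx : Per (q' x) (sx + L) d := by
      intro t ht
      rcases lt_or_ge (t + d) (m a + ℓ) with h2 | h2
      · rw [st.c1 x _ h2, st.c1 x _ (by omega)]
        exact hpa _ h2
      · have h3 := hw (t - sx) (by omega)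
        rw [show sx + (t - sx + d) = t + d by omega, show sx + (t - sx) = t by omega] at h3
        exact h3
    intro k hk
    have h4 : k % d < d := Nat.mod_lt _ hd0
    rw [per_mod hd0 hpx k hk, st.c1 x _ (by omega)]
  have hey' : ∀ k < sy + L, q' y k = q a (k % d) := by
    have hpy : Per (q' y) (sy + L) d := by
      intro t ht
      rcases lt_or_ge (t + d) (m a + ℓ) with h2 | h2
      · rw [st.c1 y _ h2, st.c1 y _ (by omega)]
        exact hpa _ h2
      · have h3 := hw (t - sy) (by omega)
        rw [heq _ (by omega), heq _ (by omega), show sy + (t - sy + d) = t + d by omega,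
          show sy + (t - sy) = t by omega] at h3
        exact h3
    intro k hk
    have h4 : k % d < d := Nat.mod_lt _ hd0
    rw [per_mod hd0 hpy k hk, st.c1 y _ (by omega)]
  refine ⟨sx, sx + L, le_rfl, hbx, by omega, fun k hk => ?_, fun k _ => rfl⟩
  rw [hex' k hk, hey' k (by omega)]

theorem Step.p2 (st : Step a ℓ m q ℓ' m' q') (h : Good ℓ m q) (x y : α) (s L i : ℕ)
    (hp : PalS (q' x) s (s + L)) (hs : s + L ≤ m' x + ℓ') (hi : i + L ≤ m' y + ℓ')
    (ho : ∀ k < L, q' y (i + k) = q' x (s + k)) :
    Tgt ℓ' m' q' x y L (fun k => q' x (s + k)) := by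
  classical
  -- first occurrences
  have hex : ∃ t, ∀ k < L, q' x (t + k) = q' x (s + k) := ⟨s, fun k _ => rfl⟩
  have hey : ∃ t, ∀ k < L, q' y (t + k) = q' x (s + k) := ⟨i, ho⟩
  obtain ⟨sx, hsx1, hsx2, hsx3⟩ : ∃ sx, (∀ k < L, q' x (sx + k) = q' x (s + k)) ∧ sx ≤ s ∧
      ∀ t < sx, ¬ ∀ k < L, q' x (t + k) = q' x (s + k) :=
    ⟨Nat.find hex, Nat.find_spec hex, Nat.find_min' hex (fun k _ => rfl),
      fun t ht => Nat.find_min hex ht⟩
  obtain ⟨sy, hsy1, hsy2, hsy3⟩ : ∃ sy, (∀ k < L, q' y (sy + k) = q' x (s + k)) ∧ sy ≤ i ∧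
      ∀ t < sy, ¬ ∀ k < L, q' y (t + k) = q' x (s + k) :=
    ⟨Nat.find hey, Nat.find_spec hey, Nat.find_min' hey ho, fun t ht => Nat.find_min hey ht⟩
  have hwp : ∀ k < L, q' x (s + k) = q' x (s + (L - 1 - k)) := by
    intro k hk
    rw [hp (s + k) (by omega) (by omega)]
    congr 1
    omega
  have hlx : LPS (q' x) (sx + L) sx := by
    apply lps_of_first
    · intro k hk1 hk2
      have h1 := hsx1 (k - sx) (by omega)
      have h2 := hsx1 (L - 1 - (k - sx)) (by omega)
      rw [show sx + (k - sx) = k by omega] at h1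
      rw [h1, hwp _ (by omega), ← h2]
      congr 1
      omega
    · intro t ht h1
      apply hsx3 t ht
      intro k hk
      rw [h1 k hk, hsx1 k hk]
  have hly : LPS (q' y) (sy + L) sy := by
    apply lps_of_first
    · intro k hk1 hk2
      have h1 := hsy1 (k - sy) (by omega)
      have h2 := hsy1 (L - 1 - (k - sy)) (by omega)
      rw [show sy + (k - sy) = k by omega] at h1
      rw [h1, hwp _ (by omega), ← h2]
      congr 1
      omega
    · intro t ht h1
      apply hsy3 t ht
      intro k hk
      rw [h1 k hk, hsy1 k hk]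
  have heq : ∀ k < L, q' x (sx + k) = q' y (sy + k) := fun k hk => by
    rw [hsx1 k hk, hsy1 k hk]
  have hbx : sx + L ≤ m' x + ℓ' := by omega
  have hby : sy + L ≤ m' y + ℓ' := by omega
  have hconv : ∀ {w : ℕ → γ}, (∀ k < L, w k = q' x (s + k)) → Tgt ℓ' m' q' x y L w →
      Tgt ℓ' m' q' x y L (fun k => q' x (s + k)) := by
    rintro w hw ⟨j, H, h1, h2, h3, h4, h5⟩
    exact ⟨j, H, h1, h2, h3, h4, fun k hk => by rw [h5 k hk]; exact hw k hk⟩
  have hlenx := st.le_len x
  have hleny := st.le_len y
  rcases le_or_gt (sx + L) (m a + ℓ) with hx0 | hx0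
  · exact ⟨sx, sx + L, le_rfl, hbx, by omega,
      fun k hk => by rw [st.c1 x _ (by omega), st.c1 y _ (by omega)], fun k hk => hsx1 k hk⟩
  rcases le_or_gt (sy + L) (m a + ℓ) with hy0 | hy0
  · exact ⟨sy, sy + L, le_rfl, by omega, hby,
      fun k hk => by rw [st.c1 x _ (by omega), st.c1 y _ (by omega)], fun k hk => by
        rw [st.c1 x _ (by omega), ← st.c1 y _ (by omega)]
        exact hsy1 k hk⟩
  rcases st.typ h hx0 hbx hlx with hA | ⟨hxa, hA1, hA2⟩
  · rcases st.typ h hy0 hby hly with hB | ⟨hya, hB1, hB2⟩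
    · rcases lt_trichotomy sx sy with h1 | h1 | h1
      · exact hconv (fun k hk => hsx1 k hk) (st.caseBB h h1 hB hx0 hbx hby heq)
      · subst h1
        refine ⟨sx, sx + L, le_rfl, hbx, hby, fun k hk => ?_, fun k hk => hsx1 k hk⟩
        rcases lt_or_ge k (m a + ℓ) with h2 | h2
        · rw [st.c1 x _ h2, st.c1 y _ h2]
        · have h3 := heq (k - sx) (by omega)
          rw [show sx + (k - sx) = k by omega] at h3
          exact h3
      · exact hconv (fun k hk => hsy1 k hk)
          (st.caseBB h h1 hA hy0 hby hbx (fun k hk => (heq k hk).symm)).symm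
    · exact hconv (fun k hk => hsx1 k hk)
        (st.caseAB h hya hB1 hB2 hA hx0 hbx (fun k hk => (heq k hk).symm)).symm
  · rcases st.typ h hy0 hby hly with hB | ⟨hya, hB1, hB2⟩
    · exact hconv (fun k hk => hsy1 k hk) (st.caseAB h hxa hA1 hA2 hB hy0 hby heq)
    · have hqx : ∀ k < L, q x (sx - m a + k) = q' x (sx + k) := by
        intro k hk
        rw [← st.c2 x hxa _ (by omega), show m a + (sx - m a + k) = sx + k by omega]
      have hqy : ∀ k < L, q y (sy - m a + k) = q' y (sy + k) := by
        intro k hk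
        rw [← st.c2 y hya _ (by omega), show m a + (sy - m a + k) = sy + k by omega]
      obtain ⟨j, H, h1, h2, h3, h4, h5⟩ := h.p2 x y (sx - m a) L (sy - m a) (by
        intro k hk1 hk2
        have h1 := hlx.2.1 (m a + k) (by omega) (by omega)
        rw [st.c2 x hxa _ (by omega)] at h1
        rw [h1, ← st.c2 x hxa _ (by omega)]
        congr 1
        omega) (by omega) (by omega) (fun k hk => by rw [hqx k hk, hqy k hk, heq k hk])
      refine ⟨m a + j, m a + H, by omega, by rw [st.hl, st.hm x hxa]; omega,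
        by rw [st.hl, st.hm y hya]; omega, fun k hk => ?_, fun k hk => ?_⟩
      · rcases lt_or_ge k (m a) with h6 | h6
        · rw [st.c1 x _ (by omega), st.c1 y _ (by omega)]
        · have h7 := st.c2 x hxa (k - m a) (by omega)
          have h8 := st.c2 y hya (k - m a) (by omega)
          rw [show m a + (k - m a) = k by omega] at h7 h8
          rw [h7, h8]
          exact h4 _ (by omega)
      · rw [Nat.add_assoc, st.c2 x hxa _ (by omega), h5 k hk, hqx k hk, hsx1 k hk]

/-- the invariants are preserved -/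
theorem Step.good (st : Step a ℓ m q ℓ' m' q') (h : Good ℓ m q) : Good ℓ' m' q' where
  pos x := by
    have h1 := h.pos a
    rcases eq_or_ne x a with rfl | hx
    · rw [st.hma]; exact h1
    · rw [st.hm x hx]; omega
  le x := by
    have h1 := h.le x
    rcases eq_or_ne x a with rfl | hx
    · rw [st.hma, st.hl]; omega
    · rw [st.hm x hx, st.hl]; omega
  pre x y k hk := by
    rw [st.hl] at hk
    rw [st.c1 x k hk, st.c1 y k hk]
  suf x k hk := by
    rw [st.hl] at hk
    rw [st.c1 x k hk]
    rcases eq_or_ne x a with rfl | hx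
    · rw [st.hma]; exact st.c2a k hk
    · rw [st.hm x hx]; exact st.c3 x hx k hk
  pal := st.pal h
  rich := st.rich h
  p2 x y s L i h1 h2 h3 h4 := st.p2 h x y s L i h1 h2 h3 h4
  p3 := st.p3 h

theorem good_init (q : α → ℕ → γ) : Good 0 (fun _ : α => 1) q where
  pos x := one_pos
  le x := le_rfl
  pre x y k hk := by omega
  suf x k hk := by omega
  pal x := fun k _ hk => by
    obtain rfl : k = 0 := by omega
    rfl
  rich x := by
    intro n hn0 hn s hl i hi
    exfalso
    have h1 := hl.1
    obtain rfl : i = 0 := by omega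
    refine hl.2.2 0 hi fun k _ hk => ?_
    obtain rfl : k = 0 := by omega
    congr 1
    omega
  p2 x y s L i h1 h2 h3 h4 := by
    rcases Nat.eq_zero_or_pos L with rfl | hL
    · exact ⟨0, 0, by omega, by omega, by omega, fun k hk => by omega, fun k hk => by omega⟩
    · obtain rfl : L = 1 := by omega
      obtain rfl : s = 0 := by omega
      obtain rfl : i = 0 := by omega
      refine ⟨0, 1, by omega, by omega, by omega, fun k hk => ?_, fun k _ => rfl⟩
      obtain rfl : k = 0 := by omega
      exact (h4 0 one_pos).symm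
  p3 x i h1 h2 := by omega

end Pool.Agent.Q162.Epi
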