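import Pool.Agent.Q162.Epi.Rich

/-!
# The third invariant for the next state
-/

set_option autoImplicit false

namespace Pool.Agent.Q162.Epi

variable {α γ : Type*} {a : α} {ℓ ℓ' : ℕ} {m m' : α → ℕ} {q q' : α → ℕ → γ}

/-- the least period of `Q[a]` divides `|F[a]|` -/
theorem Good.dvd_m (h : Good ℓ m q) {d : ℕ} (hd : MinPer (q a) (m a + ℓ) d) : d ∣ m a := by
  have hper : Per (q a) (m a + ℓ) (m a) := by
    intro k hk
    rw [Nat.add_comm k, h.suf a k (by omega)]
  have hle := h.le a
  have h1 := minPer_le hd (h.pos a) hper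
  rcases le_or_gt d ℓ with h2 | h2
  · exact minPer_dvd hd (h.pos a) hper (by omega)
  · have h3 : d = m a := by omega
    rw [h3]

/-- if `q a` and `q x` have period `d ≤ ℓ` then so has `q' x` -/
theorem Step.perAll (st : Step a ℓ m q ℓ' m' q') {x : α} {d : ℕ} (hd : d ≤ ℓ)
    (ha : Per (q a) (m a + ℓ) d) (hx : Per (q x) (m x + ℓ) d) : Per (q' x) (m' x + ℓ') d := by
  rcases eq_or_ne x a with rfl | hxa
  · intro k hk
    rw [st.hl, st.hma] at hk
    rcases lt_or_ge (k + d) (m x + ℓ) with h1 | h1
    · rw [st.c1 _ _ h1, st.c1 _ _ (by omega)]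
      exact ha k h1
    · have h2 := st.c2a (k - m x) (by omega)
      have h3 := st.c2a (k - m x + d) (by omega)
      rw [show m x + (k - m x) = k by omega] at h2
      rw [show m x + (k - m x + d) = k + d by omega] at h3
      rw [h2, h3]
      exact ha _ (by omega)
  · intro k hk
    rw [st.hl, st.hm x hxa] at hk
    rcases lt_or_ge (k + d) (m a + ℓ) with h1 | h1
    · rw [st.c1 _ _ h1, st.c1 _ _ (by omega)]
      exact ha k h1
    rcases lt_or_ge (k + d) (m a + m x + ℓ) with h4 | h4
    · have h2 := st.c2 x hxa (k - m a) (by omega)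
      have h3 := st.c2 x hxa (k - m a + d) (by omega)
      rw [show m a + (k - m a) = k by omega] at h2
      rw [show m a + (k - m a + d) = k + d by omega] at h3
      rw [h2, h3]
      exact hx _ (by omega)
    · have h2 := st.c3 x hxa (k - m a - m x) (by omega)
      have h3 := st.c3 x hxa (k - m a - m x + d) (by omega)
      rw [show m a + m x + (k - m a - m x) = k by omega] at h2
      rw [show m a + m x + (k - m a - m x + d) = k + d by omega] at h3
      rw [h2, h3]
      exact ha _ (by omega)

theorem Step.p3a (st : Step a ℓ m q ℓ' m' q') (h : Good ℓ m q) {d : ℕ}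
    (hd : MinPer (q a) (m a + ℓ) d) : Per (q' a) (m' a + ℓ') d := by
  have hdv := h.dvd_m hd
  have hmod := per_mod hd.1 hd.2.2.1
  apply per_of_mod (g := q a)
  intro k hk
  rw [st.hl, st.hma] at hk
  rcases lt_or_ge k (m a + ℓ) with h1 | h1
  · rw [st.c1 _ _ h1]
    exact hmod k h1
  · have h2 := st.c2a (k - m a) (by omega)
    rw [show m a + (k - m a) = k by omega] at h2
    rw [h2, hmod _ (by omega)]
    congr 1
    obtain ⟨c, hc⟩ := hdv
    have h3 : k = (k - m a) + d * c := by omega
    conv_rhs => rw [h3, Nat.add_mul_mod_self_left]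

/-- sub-case A: the occurrence starts inside `F[a]` -/
theorem Step.p3A (st : Step a ℓ m q ℓ' m' q') (h : Good ℓ m q) {x : α} (hx : x ≠ a) {i : ℕ}
    (hi0 : 0 < i) (hi : i < m a) (ho : ∀ k < m a + ℓ, q' x (i + k) = q a k) {d : ℕ}
    (hd : MinPer (q a) (m a + ℓ) d) : Per (q' x) (m' x + ℓ') d := by
  have hℓ : 0 < ℓ := by have := h.le a; omega
  obtain ⟨e, he⟩ := minPer_exists (q a) hℓ
  have hocc : ∀ k < ℓ, q a (i + k) = q a k := by
    intro k hk
    rw [← st.c1 x (i + k) (by omega)]
    exact ho k (by omega)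
  have hpa := h.p3 a i hi0 hi hocc e he
  have hde : d = e := by
    have h1 := minPer_le hd he.1 hpa
    have h2 := minPer_le he hd.1 (per_mono hd.2.2.1 (by omega))
    omega
  subst hde
  have hdl := he.2.1
  have hdi : d ∣ i := occ_mult he hpa (by omega) hocc
  have hdi' : d ≤ i := Nat.le_of_dvd hi0 hdi
  -- `q' x` has period `d` on `[0, i + m a + ℓ)`
  have hpre : Per (q' x) (i + (m a + ℓ)) d := by
    intro k hk
    rcases lt_or_ge (k + d) (m a + ℓ) with h1 | h1
    · rw [st.c1 _ _ h1, st.c1 _ _ (by omega)]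
      exact hpa k h1
    · have h2 := ho (k - i) (by omega)
      have h3 := ho (k - i + d) (by omega)
      rw [show i + (k - i) = k by omega] at h2
      rw [show i + (k - i + d) = k + d by omega] at h3
      rw [h2, h3]
      exact hpa _ (by omega)
  -- `q x` has period `d`
  have hpx : Per (q x) (m x + ℓ) d := by
    have hshort : ∀ k, k + d < m x + ℓ → k + d < i + ℓ → q x (k + d) = q x k := by
      intro k hk1 hk2
      rw [← st.c2 x hx _ hk1, ← st.c2 x hx k (by omega), ← Nat.add_assoc]
      exact hpre _ (by omega)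
    rcases le_or_gt (m x) i with h1 | h1
    · intro k hk
      exact hshort k hk (by omega)
    · apply h.p3 x d hd.1 (by omega) ?_ d (h.minPer_congr he)
      intro k hk
      rw [Nat.add_comm]
      exact hshort k (by omega) (by omega)
  exact st.perAll hdl hpa hpx

/-- sub-case B: the occurrence is inside the chart of `x` -/
theorem Step.p3B (st : Step a ℓ m q ℓ' m' q') (h : Good ℓ m q) {x : α} (hx : x ≠ a) {i : ℕ}
    (hi : m a ≤ i) (hi2 : i ≤ m x) (ho : ∀ k < m a + ℓ, q' x (i + k) = q a k) {d : ℕ}
    (hd : MinPer (q a) (m a + ℓ) d) : Per (q' x) (m' x + ℓ') d := by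
  have hocc : ∀ k < m a + ℓ, q x (i - m a + k) = q a (0 + k) := by
    intro k hk
    rw [← st.c2 x hx _ (by omega), show m a + (i - m a + k) = i + k by omega, Nat.zero_add]
    exact ho k hk
  obtain ⟨j, H, hj, hH1, hH2, hag, -⟩ := h.p2 a x 0 (m a + ℓ) (i - m a)
    (by rw [Nat.zero_add]; exact h.pal a) (by omega) (by omega) hocc
  have hmx : m a ≤ m x := by omega
  have hpfx : ∀ k < m a + ℓ, q a k = q x k := fun k hk => hag k (by omega)
  have hlea := h.le a
  have hlex := h.le x
  have hposa := h.pos a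
  have hdm := h.dvd_m hd
  -- `δ = m x - m a` is a period of `q x`
  have hδ : Per (q x) (m x + ℓ) (m x - m a) := by
    intro k hk
    have h1 : k < m a + ℓ := by omega
    rw [h.pal x (k + (m x - m a)) (Nat.zero_le _) hk,
      show 0 + (m x + ℓ) - 1 - (k + (m x - m a)) = m a + ℓ - 1 - k by omega,
      ← hpfx _ (by omega), ← hpfx k h1, h.pal a k (Nat.zero_le _) h1]
    congr 1
    omega
  have hmoda := per_mod hd.1 hd.2.2.1
  have hdx : d ∣ m x - m a := by
    rcases Nat.eq_zero_or_pos (m x - m a) with h0 | h0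
    · rw [h0]
      exact dvd_zero d
    · have hδa : Per (q a) (m a + ℓ) (m x - m a) := by
        intro k hk
        rw [hpfx _ hk, hpfx k (by omega)]
        exact hδ k (by omega)
      have hma : Per (q a) (m a + ℓ) (m a) := by
        intro k hk
        rw [Nat.add_comm k, h.suf a k (by omega)]
      have hg := fw _ (m x - m a) (m a) le_rfl h0 hposa (by omega) hδa hma
      have hg0 : 0 < Nat.gcd (m x - m a) (m a) := Nat.gcd_pos_of_pos_left _ h0
      have hg1 : Nat.gcd (m x - m a) (m a) ≤ m x - m a := Nat.gcd_le_left _ h0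
      have hg2 : Nat.gcd (m x - m a) (m a) ≤ m a := Nat.gcd_le_right _ hposa
      have hdg := minPer_le hd hg0 hg
      exact (minPer_dvd hd hg0 hg (by omega)).trans (Nat.gcd_dvd_left _ _)
  have hmodx : ∀ k < m x + ℓ, q x k = q a (k % d) := by
    intro k
    induction k using Nat.strong_induction_on with
    | _ k ih =>
      intro hk
      rcases lt_or_ge k (m a + ℓ) with h1 | h1
      · rw [← hpfx k h1]
        exact hmoda k h1
      · rcases Nat.eq_zero_or_pos (m x - m a) with h0 | h0
        · omega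
        have h2 := hδ (k - (m x - m a)) (by omega)
        rw [show k - (m x - m a) + (m x - m a) = k by omega] at h2
        rw [h2, ih (k - (m x - m a)) (by omega) (by omega)]
        congr 1
        obtain ⟨c, hc⟩ := hdx
        have h3 : k = (k - (m x - m a)) + d * c := by omega
        conv_rhs => rw [h3, Nat.add_mul_mod_self_left]
  apply per_of_mod (g := q a)
  intro k hk
  rw [st.hl, st.hm x hx] at hk
  obtain ⟨c, hc⟩ := hdm
  obtain ⟨c', hc'⟩ := hdx
  rcases lt_or_ge k (m a + ℓ) with h1 | h1
  · rw [st.c1 _ _ h1]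
    exact hmoda k h1
  rcases lt_or_ge k (m a + m x + ℓ) with h4 | h4
  · have h2 := st.c2 x hx (k - m a) (by omega)
    rw [show m a + (k - m a) = k by omega] at h2
    rw [h2, hmodx _ (by omega)]
    congr 1
    have h3 : k = (k - m a) + d * c := by omega
    conv_rhs => rw [h3, Nat.add_mul_mod_self_left]
  · have h2 := st.c3 x hx (k - m a - m x) (by omega)
    rw [show m a + m x + (k - m a - m x) = k by omega] at h2
    rw [h2, hmoda _ (by omega)]
    congr 1
    have h3 : k = (k - m a - m x) + d * c + d * c' + d * c := by omega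
    conv_rhs => rw [h3, Nat.add_mul_mod_self_left, Nat.add_mul_mod_self_left,
      Nat.add_mul_mod_self_left]

theorem Step.p3 (st : Step a ℓ m q ℓ' m' q') (h : Good ℓ m q) (x : α) (i : ℕ) (hi0 : 0 < i)
    (hi : i < m' x) (ho : ∀ k < ℓ', q' x (i + k) = q' x k) (d : ℕ) (hd : MinPer (q' x) ℓ' d) :
    Per (q' x) (m' x + ℓ') d := by
  have hda : MinPer (q a) (m a + ℓ) d := by
    have key : ∀ e, Per (q' x) ℓ' e ↔ Per (q a) (m a + ℓ) e := by
      intro e
      rw [st.hl]
      constructor
      · intro h1 k hk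
        rw [← st.c1 x _ hk, ← st.c1 x k (by omega)]
        exact h1 k hk
      · intro h1 k hk
        rw [st.c1 x _ hk, st.c1 x k (by omega)]
        exact h1 k hk
    exact ⟨hd.1, by rw [← st.hl]; exact hd.2.1, (key d).1 hd.2.2.1,
      fun e he h1 h2 => hd.2.2.2 e he h1 ((key e).2 h2)⟩
  rw [st.hl] at ho
  have ho' : ∀ k < m a + ℓ, q' x (i + k) = q a k := by
    intro k hk
    rw [← st.c1 x k hk]
    exact ho k hk
  rcases eq_or_ne x a with rfl | hx
  · exact st.p3a h hda
  rcases lt_or_ge i (m a) with h1 | h1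
  · exact st.p3A h hx hi0 h1 ho' hda
  rcases le_or_gt i (m x) with h2 | h2
  · exact st.p3B h hx h1 h2 ho' hda
  · -- reflect the occurrence
    rw [st.hm x hx] at hi
    refine st.p3A h hx (i := m a + m x - i) (by omega) (by omega) ?_ hda
    intro k hk
    rw [st.pal h x _ (Nat.zero_le _) (by rw [st.hl, st.hm x hx]; omega)]
    rw [st.hl, st.hm x hx,
      show 0 + (m a + m x + (m a + ℓ)) - 1 - (m a + m x - i + k) = i + (m a + ℓ - 1 - k) by omega,
      ho' _ (by omega), h.pal a k (Nat.zero_le _) hk]
    congr 1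
    omega

end Pool.Agent.Q162.Epi
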