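import Pool.Agent.Q162.Epi.Core

/-!
# The invariants of a projected episturmian state, and richness of the next state
-/

set_option autoImplicit false

namespace Pool.Agent.Q162.Epi

variable {α γ : Type*}

/-- the invariants: `q x` on `[0, m x + ℓ)` is the palindrome belonging to the letter `x` -/
structure Good (ℓ : ℕ) (m : α → ℕ) (q : α → ℕ → γ) : Prop where
  pos : ∀ x, 0 < m x
  le : ∀ x, m x ≤ ℓ + 1
  pre : ∀ x y k, k < ℓ → q x k = q y k
  suf : ∀ x k, k < ℓ → q x (m x + k) = q x k
  pal : ∀ x, PalS (q x) 0 (m x + ℓ)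
  rich : ∀ x, RichF (q x) (m x + ℓ)
  p2 : ∀ x y s L i, PalS (q x) s (s + L) → s + L ≤ m x + ℓ → i + L ≤ m y + ℓ →
    (∀ k < L, q y (i + k) = q x (s + k)) →
    ∃ j H, j + L ≤ H ∧ H ≤ m x + ℓ ∧ H ≤ m y + ℓ ∧ (∀ k < H, q x k = q y k) ∧
      ∀ k < L, q x (j + k) = q x (s + k)
  p3 : ∀ x i, 0 < i → i < m x → (∀ k < ℓ, q x (i + k) = q x k) →
    ∀ d, MinPer (q x) ℓ d → Per (q x) (m x + ℓ) d

/-- the next state, after the directive letter `a` -/
structure Step (a : α) (ℓ : ℕ) (m : α → ℕ) (q : α → ℕ → γ) (ℓ' : ℕ) (m' : α → ℕ)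
    (q' : α → ℕ → γ) : Prop where
  hl : ℓ' = m a + ℓ
  hma : m' a = m a
  hm : ∀ x, x ≠ a → m' x = m a + m x
  c1 : ∀ x k, k < m a + ℓ → q' x k = q a k
  c2 : ∀ x, x ≠ a → ∀ k, k < m x + ℓ → q' x (m a + k) = q x k
  c2a : ∀ k, k < m a + ℓ → q' a (m a + k) = q a k
  c3 : ∀ x, x ≠ a → ∀ k, k < m a + ℓ → q' x (m a + m x + k) = q a k

section
variable {ℓ : ℕ} {m : α → ℕ} {q : α → ℕ → γ}

theorem Good.palp (h : Good ℓ m q) (x : α) : PalS (q x) 0 ℓ := by
  intro k _ hk2
  have h1 := h.pal x k (Nat.zero_le _) (by omega)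
  have h2 := h.suf x (ℓ - 1 - k) (by omega)
  rw [h1, show 0 + (m x + ℓ) - 1 - k = m x + (ℓ - 1 - k) by omega, h2]
  congr 1
  omega

theorem Good.minPer_congr (h : Good ℓ m q) {x y : α} {d : ℕ} (hd : MinPer (q x) ℓ d) :
    MinPer (q y) ℓ d := by
  have key : ∀ e, Per (q x) ℓ e ↔ Per (q y) ℓ e := by
    intro e
    constructor
    · intro h1 k hk
      rw [h.pre y x _ hk, h.pre y x k (by omega)]
      exact h1 k hk
    · intro h1 k hk
      rw [h.pre x y _ hk, h.pre x y k (by omega)]
      exact h1 k hk
  exact ⟨hd.1, hd.2.1, (key d).1 hd.2.2.1, fun e he h1 h2 => hd.2.2.2 e he h1 ((key e).2 h2)⟩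

/-- the last case: the palindromic suffix starts before the chart of `x` -/
theorem Good.caseB (h : Good ℓ m q) {a : α} {g : ℕ → γ} {n s : ℕ}
    (hg : ∀ k < m a + ℓ, g k = q a k) (hn : m a + ℓ < n) (hl : LPS g n s) (hs : s < m a) :
    Uni g n s := by
  intro i hi ho
  have hgap := lps_gap hl hi ho
  have hsn := hl.1
  have hℓ : 0 < ℓ := by have := h.le a; omega
  -- the occurrence of the prefix inside `q a`
  have hocc : ∀ k < ℓ, q a (i + (m a - s) + k) = q a k := by
    intro k hk
    rw [← hg (i + (m a - s) + k) (by omega)]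
    have h1 := ho (m a - s + k) (by omega)
    rw [show i + (m a - s) + k = i + (m a - s + k) by omega, h1,
      show s + (m a - s + k) = m a + k by omega, hg (m a + k) (by omega), h.suf a k hk]
  obtain ⟨d, hd⟩ := minPer_exists (q a) hℓ
  have hper := h.p3 a (i + (m a - s)) (by omega) (by omega) hocc d hd
  have hdl := hd.2.1
  have hd0 := hd.1
  have hpg : Per g n d := by
    intro k hk
    rcases lt_or_ge (k + d) (m a + ℓ) with h1 | h1
    · rw [hg _ h1, hg k (by omega)]
      exact hper k h1
    · have h2 := ho (k - s) (by omega)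
      have h3 := ho (k - s + d) (by omega)
      rw [show s + (k - s) = k by omega] at h2
      rw [show s + (k - s + d) = k + d by omega] at h3
      rw [← h2, ← h3, hg _ (by omega), hg _ (by omega),
        show i + (k - s + d) = i + (k - s) + d by omega]
      exact hper _ (by omega)
  have hpal : PalS g 0 ℓ := by
    intro k hk1 hk2
    rw [hg k (by omega), hg _ (by omega)]
    exact h.palp a k hk1 hk2
  have h3 := per_lps hpg hd0 hdl (by omega) hpal hl
  omega

/-- prefixes of `F[a] Q[y]` -/
theorem Good.richPre (h : Good ℓ m q) {a y : α} {g : ℕ → γ}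
    (hg : ∀ k < m a + ℓ, g k = q a k) (hg2 : ∀ k < m y + ℓ, g (m a + k) = q y k) :
    RichF g (m a + m y + ℓ) := by
  intro n hn0 hn s hl
  rcases le_or_gt n (m a + ℓ) with h1 | h1
  · have h2 : LPS (q a) n s := lps_congr (fun k hk => hg k (by omega)) hl
    have h3 := h.rich a n hn0 h1 s h2
    intro i hi ho
    apply h3 i hi
    intro k hk
    have := hl.1
    rw [← hg _ (by omega), ← hg _ (by omega)]
    exact ho k hk
  rcases lt_or_ge s (m a) with h2 | h2
  · exact h.caseB hg h1 hl h2
  -- `s` is in the chart of `y`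
  intro i hi ho
  have hgap := lps_gap hl hi ho
  have hsn := hl.1
  have hlv : LPS (q y) (n - m a) (s - m a) := by
    refine ⟨by omega, ?_, ?_⟩
    · intro k hk1 hk2
      have h3 := hl.2.1 (m a + k) (by omega) (by omega)
      rw [hg2 k (by omega), show s + n - 1 - (m a + k) = m a + (s - m a + (n - m a) - 1 - k) by
        omega, hg2 _ (by omega)] at h3
      exact h3
    · intro t ht hp
      apply hl.2.2 (m a + t) (by omega)
      intro k hk1 hk2
      have h3 := hp (k - m a) (by omega) (by omega)
      rw [← hg2 _ (by omega), ← hg2 _ (by omega)] at h3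
      rw [show m a + (k - m a) = k by omega] at h3
      rw [h3]
      congr 1
      omega
  have hry := h.rich y (n - m a) (by omega) (by omega) _ hlv
  rcases le_or_gt (m a) i with h3 | h3
  · -- occurrence inside `q y`
    apply hry (i - m a) (by omega)
    intro k hk
    have h4 := ho k (by omega)
    rw [← hg2 _ (by omega), ← hg2 _ (by omega), show m a + (i - m a + k) = i + k by omega,
      show m a + (s - m a + k) = s + k by omega]
    exact h4
  rcases le_or_gt (i + (n - s)) (m a + ℓ) with h4 | h4
  · -- occurrence inside `q a`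
    have h5 : s - m a + (n - s) = n - m a := by omega
    have hp2 := h.p2 y a (s - m a) (n - s) i (by rw [h5]; exact hlv.2.1) (by omega) h4 (by
      intro k hk
      rw [← hg _ (by omega), ← hg2 _ (by omega), show m a + (s - m a + k) = s + k by omega]
      exact ho k hk)
    obtain ⟨j, H, hj, hH1, hH2, hag, hjo⟩ := hp2
    rcases lt_or_ge j (s - m a) with h6 | h6
    · apply hry j h6
      intro k hk
      exact hjo k (by omega)
    · -- a longer palindromic suffix centred at the middle prefix
      apply hl.2.2 (2 * m a + ℓ - n) (by omega)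
      have key : ∀ k, m a ≤ k → k < n → g k = g (2 * m a + ℓ - n + n - 1 - k) := by
        intro k hk1 hk2
        have h7 : g k = q a (k - m a) := by
          have := hg2 (k - m a) (by omega)
          rw [show m a + (k - m a) = k by omega] at this
          rw [this]
          exact hag _ (by omega)
        rw [h7, hg _ (by omega), h.pal a (k - m a) (Nat.zero_le _) (by omega)]
        congr 1
        omega
      intro k hk1 hk2
      rcases lt_or_ge k (m a) with h7 | h7
      · have h8 := key (2 * m a + ℓ - n + n - 1 - k) (by omega) (by omega)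
        rw [h8]
        congr 1
        omega
      · exact key k h7 hk2
  · -- crossing occurrence
    have hocc : ∀ k < ℓ, q y (s - m a + (m a - i) + k) = q y k := by
      intro k hk
      have h5 := ho (m a - i + k) (by omega)
      rw [show i + (m a - i + k) = m a + k by omega, hg2 k (by omega),
        show s + (m a - i + k) = m a + (s - m a + (m a - i) + k) by omega,
        hg2 _ (by omega)] at h5
      exact h5.symm
    have hℓ : 0 < ℓ := by have := h.le y; omega
    obtain ⟨d, hd⟩ := minPer_exists (q y) hℓ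
    have hper := h.p3 y (s - m a + (m a - i)) (by omega) (by omega) hocc d hd
    have h6 := per_lps (per_mono hper (by omega)) hd.1 hd.2.1 (by omega) (h.palp y) hlv
    have := hd.2.1
    omega

end

section
variable {a : α} {ℓ ℓ' : ℕ} {m m' : α → ℕ} {q q' : α → ℕ → γ}

theorem Step.pal (st : Step a ℓ m q ℓ' m' q') (h : Good ℓ m q) (x : α) :
    PalS (q' x) 0 (m' x + ℓ') := by
  rcases eq_or_ne x a with rfl | hx
  · have key : ∀ k, k < m x + ℓ → q' x k = q' x (0 + (m' x + ℓ') - 1 - k) := by
      intro k hk
      rw [st.c1 x k hk, st.hl, st.hma, show 0 + (m x + (m x + ℓ)) - 1 - k = m x + (m x + ℓ - 1 - k)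
        by omega, st.c2a _ (by omega), h.pal x k (Nat.zero_le _) hk]
      congr 1
      omega
    intro k _ hk2
    rw [st.hl, st.hma] at hk2
    rcases lt_or_ge k (m x + ℓ) with h1 | h1
    · exact key k h1
    · have h2 := key (0 + (m' x + ℓ') - 1 - k) (by rw [st.hl, st.hma]; omega)
      rw [h2]
      congr 1
      rw [st.hl, st.hma]
      omega
  · have key : ∀ k, k < m a + ℓ → q' x k = q' x (0 + (m' x + ℓ') - 1 - k) := by
      intro k hk
      rw [st.c1 x k hk, st.hl, st.hm x hx,
        show 0 + (m a + m x + (m a + ℓ)) - 1 - k = m a + m x + (m a + ℓ - 1 - k)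
        by omega, st.c3 x hx _ (by omega), h.pal a k (Nat.zero_le _) hk]
      congr 1
      omega
    intro k _ hk2
    rw [st.hl, st.hm x hx] at hk2
    rcases lt_or_ge k (m a + ℓ) with h1 | h1
    · exact key k h1
    rcases lt_or_ge k (m a + m x + ℓ) with h3 | h3
    · have h4 := st.c2 x hx (k - m a) (by omega)
      rw [show m a + (k - m a) = k by omega] at h4
      rw [h4, st.hl, st.hm x hx,
        show 0 + (m a + m x + (m a + ℓ)) - 1 - k = m a + (m x + ℓ - 1 - (k - m a)) by omega,
        st.c2 x hx _ (by omega), h.pal x (k - m a) (Nat.zero_le _) (by omega)]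
      congr 1
      omega
    · have h2 := key (0 + (m' x + ℓ') - 1 - k) (by rw [st.hl, st.hm x hx]; omega)
      rw [h2]
      congr 1
      rw [st.hl, st.hm x hx]
      omega

theorem Step.rich (st : Step a ℓ m q ℓ' m' q') (h : Good ℓ m q) (x : α) :
    RichF (q' x) (m' x + ℓ') := by
  rcases eq_or_ne x a with rfl | hx
  · have h1 := h.richPre (a := x) (y := x) (g := q' x) (st.c1 x) st.c2a
    rw [st.hl, st.hma, ← Nat.add_assoc]
    exact h1
  · have h1 := h.richPre (a := a) (y := x) (g := q' x) (st.c1 x) (st.c2 x hx)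
    intro n hn0 hn s hl
    rcases le_or_gt n (m a + m x + ℓ) with h2 | h2
    · exact h1 n hn0 h2 s hl
    · refine h.caseB (st.c1 x) (by omega) hl ?_
      by_contra h3
      have h4 := palS_sub (st.pal h x) hn
      rw [st.hl, st.hm x hx] at h4 hn
      exact hl.2.2 _ (by omega) h4

end

end Pool.Agent.Q162.Epi
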