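import Pool.Agent.Q162.Epi.P2

/-!
# From the states to lists: richness in the sense of counting palindromes
-/

set_option autoImplicit false

namespace Pool.Agent.Q162.Epi

section pal
variable {β : Type*}

/-- the palindromic factors -/
def palSet (w : List β) : Set (List β) := {v | v <:+: w ∧ v.reverse = v}

theorem palSet_finite (w : List β) : (palSet w).Finite := by
  classical
  refine (List.finite_toSet w.sublists).subset fun v hv => ?_
  exact List.mem_sublists.2 hv.1.sublist

/-- the function of a list -/
def fn (w : List β) : ℕ → Option β := fun k => w[k]?

theorem suffix_pal {w v : List β} (h : v <:+ w) (hv : v.reverse = v) :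
    PalS (fn w) (w.length - v.length) w.length := by
  obtain ⟨t, rfl⟩ := h
  intro k hk1 hk2
  simp only [List.length_append, Nat.add_sub_cancel] at hk1 hk2 ⊢
  have h1 : fn (t ++ v) k = v[k - t.length]? := by
    simp only [fn]
    rw [List.getElem?_append_right hk1]
  have h2 : fn (t ++ v) (t.length + (t.length + v.length) - 1 - k) =
      v[t.length + v.length - 1 - k]? := by
    simp only [fn]
    rw [List.getElem?_append_right (by omega)]
    congr 1
    omega
  rw [h1, h2]
  conv_lhs => rw [← hv]
  rw [List.getElem?_reverse (by omega)]
  congr 1
  omega

/-- the palindromic suffix starting at `s` -/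
theorem pal_drop {w : List β} {s : ℕ} (hs : s ≤ w.length) (h : PalS (fn w) s w.length) :
    (w.drop s).reverse = w.drop s := by
  apply List.ext_getElem?
  intro k
  rcases lt_or_ge k (w.length - s) with h1 | h1
  · rw [List.getElem?_reverse (by rw [List.length_drop]; exact h1), List.getElem?_drop,
      List.getElem?_drop, List.length_drop]
    have h2 := h (s + k) (by omega) (by omega)
    simp only [fn] at h2
    rw [h2]
    congr 1
    omega
  · rw [List.getElem?_eq_none (by rw [List.length_reverse, List.length_drop]; exact h1),
      List.getElem?_eq_none (by rw [List.length_drop]; exact h1)]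

theorem palSet_concat (z : List β) (c : β) {s : ℕ} (hl : LPS (fn (z ++ [c])) (z ++ [c]).length s) :
    palSet (z ++ [c]) ⊆ insert ((z ++ [c]).drop s) (palSet z) := by
  intro v hv
  rcases List.infix_concat_iff.1 hv.1 with h | h
  · -- `v` is a suffix
    have hlen := h.length_le
    have h1 := suffix_pal h hv.2
    have h2 : s ≤ (z ++ [c]).length - v.length := by
      by_contra h3
      exact hl.2.2 _ (not_le.1 h3) h1
    have h5 : v = (z ++ [c]).drop ((z ++ [c]).length - v.length) := List.suffix_iff_eq_drop.1 h
    rcases h2.eq_or_lt with h3 | h3
    · left
      rw [h3]
      exact h5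
    · right
      refine ⟨?_, hv.2⟩
      -- `v` is a suffix, hence a prefix, of the longest palindromic suffix
      have h4 : v <:+ (z ++ [c]).drop s := by
        rw [h5]
        refine ⟨((z ++ [c]).drop s).take ((z ++ [c]).length - v.length - s), ?_⟩
        have h6 : (z ++ [c]).drop ((z ++ [c]).length - v.length) =
            ((z ++ [c]).drop s).drop ((z ++ [c]).length - v.length - s) := by
          rw [List.drop_drop]
          congr 1
          omega
        rw [h6, List.take_append_drop]
      have h7 : v <+: (z ++ [c]).drop s := by
        rw [← pal_drop hl.1 hl.2.1, ← hv.2]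
        exact List.reverse_prefix.2 h4
      have h8 : ((z ++ [c]).take s) ++ v <+: z ++ [c] := by
        obtain ⟨r, hr⟩ := h7
        exact ⟨r, by rw [List.append_assoc, hr, List.take_append_drop]⟩
      have h9 : ((z ++ [c]).take s) ++ v <+: z := by
        rcases List.prefix_concat_iff.1 h8 with h10 | h10
        · exfalso
          have h11 := congrArg List.length h10
          rw [List.length_append, List.length_take, Nat.min_eq_left hl.1] at h11
          omega
        · exact h10
      exact (List.suffix_append _ _).isInfix.trans h9.isInfix
  · right
    exact ⟨h, hv.2⟩

theorem ncard_concat (z : List β) (c : β) :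
    (palSet (z ++ [c])).ncard ≤ (palSet z).ncard + 1 := by
  obtain ⟨s, hs⟩ := lps_exists (fn (z ++ [c])) (z ++ [c]).length
  refine (Set.ncard_le_ncard (palSet_concat z c hs) ((palSet_finite z).insert _)).trans ?_
  exact Set.ncard_insert_le _ _

theorem palSet_reverse (z : List β) : palSet z.reverse = palSet z := by
  ext v
  constructor
  · rintro ⟨h1, h2⟩
    refine ⟨?_, h2⟩
    rw [← h2] at h1
    exact List.reverse_infix.1 h1
  · rintro ⟨h1, h2⟩
    refine ⟨?_, h2⟩
    rw [← h2]
    exact List.reverse_infix.2 h1

theorem ncard_cons (z : List β) (c : β) :
    (palSet (c :: z)).ncard ≤ (palSet z).ncard + 1 := by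
  have h := ncard_concat z.reverse c
  rw [palSet_reverse, ← List.reverse_cons, palSet_reverse] at h
  exact h

theorem palSet_nil : palSet ([] : List β) = {[]} := by
  ext v
  simp only [palSet, Set.mem_ofPred_eq, Set.mem_singleton_iff, List.infix_nil]
  constructor
  · exact fun h => h.1
  · rintro rfl
    exact ⟨rfl, rfl⟩

theorem ncard_le (z : List β) : (palSet z).ncard ≤ z.length + 1 := by
  induction z with
  | nil => rw [palSet_nil, Set.ncard_singleton]; rfl
  | cons c z ih =>
    refine (ncard_cons z c).trans ?_
    rw [List.length_cons]
    omega

theorem ncard_append_left (t z : List β) :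
    (palSet (t ++ z)).ncard ≤ (palSet z).ncard + t.length := by
  induction t with
  | nil => simp
  | cons c t ih =>
    refine (ncard_cons (t ++ z) c).trans ?_
    rw [List.length_cons]
    omega

theorem ncard_append_right (z t : List β) :
    (palSet (z ++ t)).ncard ≤ (palSet z).ncard + t.length := by
  have h := ncard_append_left t.reverse z.reverse
  rw [← List.reverse_append, palSet_reverse, palSet_reverse, List.length_reverse] at h
  exact h

/-- factors of rich words are rich -/
theorem rich_infix {v w : List β} (h : v <:+: w) (hw : (palSet w).ncard = w.length + 1) :
    (palSet v).ncard = v.length + 1 := by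
  obtain ⟨s, t, rfl⟩ := h
  have h1 := ncard_append_right (s ++ v) t
  have h2 := ncard_append_left s v
  have h3 := ncard_le v
  rw [List.length_append, List.length_append] at hw
  omega

/-- the criterion with unioccurrent palindromic suffixes -/
theorem rich_of_richF (w : List β) (h : RichF (fn w) w.length) :
    (palSet w).ncard = w.length + 1 := by
  induction w using List.reverseRecOn with
  | nil => rw [palSet_nil, Set.ncard_singleton]; rfl
  | append_singleton z c ih =>
    have hz : RichF (fn z) z.length := by
      intro n hn0 hn s hl i hi ho
      have h1 : ∀ k < n, fn z k = fn (z ++ [c]) k := by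
        intro k hk
        simp only [fn]
        rw [List.getElem?_append_left (by omega)]
      have h2 := hl.1
      refine h n hn0 (by rw [List.length_append]; omega) s (lps_congr h1 hl) i hi fun k hk => ?_
      rw [← h1 _ (by omega), ← h1 _ (by omega)]
      exact ho k hk
    have hcard := ih hz
    obtain ⟨s, hs⟩ := lps_exists (fn (z ++ [c])) (z ++ [c]).length
    have hu := h _ (by rw [List.length_append, List.length_singleton]; omega) le_rfl s hs
    have hsub := palSet_concat z c hs
    have hnot : (z ++ [c]).drop s ∉ palSet z := by
      intro h1
      obtain ⟨p, r, hpr⟩ := h1.1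
      have hlen := congrArg List.length hpr
      rw [List.length_append, List.length_append, List.length_drop] at hlen
      rw [List.length_append, List.length_singleton] at hlen
      have hs1 := hs.1
      rw [List.length_append, List.length_singleton] at hs1
      have hlt : p.length < s := by omega
      refine hu p.length hlt fun k hk => ?_
      rw [List.length_append, List.length_singleton] at hk
      simp only [fn]
      rw [List.getElem?_append_left (by omega)]
      conv_lhs => rw [← hpr]
      rw [List.append_assoc,
        List.getElem?_append_right (by omega), Nat.add_sub_cancel_left,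
        List.getElem?_append_left (by
          rw [List.length_drop, List.length_append, List.length_singleton]; exact hk),
        List.getElem?_drop]
    have heq : palSet (z ++ [c]) = insert ((z ++ [c]).drop s) (palSet z) := by
      refine Set.Subset.antisymm hsub ?_
      intro v hv
      rcases Set.mem_insert_iff.1 hv with rfl | h1
      · exact ⟨(List.drop_suffix _ _).isInfix, pal_drop hs.1 hs.2.1⟩
      · exact ⟨h1.1.trans (List.prefix_append _ _).isInfix, h1.2⟩
    rw [heq, Set.ncard_insert_of_notMem hnot (palSet_finite z), hcard, List.length_append,
      List.length_singleton]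

end pal

section state
variable {α β : Type*}

/-- the projected states that can be reached after `n` directive letters -/
inductive Reach (ζ : α → β) : ℕ → List β → (α → List β) → Prop
  | init : Reach ζ 0 [] (fun x => [ζ x])
  | step (n : ℕ) (p : List β) (F F' : α → List β) (a : α) (h : Reach ζ n p F)
      (h1 : F' a = F a) (h2 : ∀ x, x ≠ a → F' x = F a ++ F x) :
      Reach ζ (n + 1) (F a ++ p) F'

theorem Reach.good {ζ : α → β} {n : ℕ} {p : List β} {F : α → List β} (h : Reach ζ n p F) :
    Good p.length (fun x => (F x).length) (fun x => fn (F x ++ p)) := by
  induction h with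
  | init => exact good_init _
  | step n p F F' a h h1 h2 ih =>
    have hp : ∀ x k, k < p.length → p[k]? = fn (F x ++ p) k := by
      intro x k hk
      have h3 := ih.suf x k hk
      simp only [fn] at h3 ⊢
      rw [List.getElem?_append_right (Nat.le_add_right _ _), Nat.add_sub_cancel_left] at h3
      exact h3
    have st : Step a p.length (fun x => (F x).length) (fun x => fn (F x ++ p)) (F a ++ p).length
        (fun x => (F' x).length) (fun x => fn (F' x ++ (F a ++ p))) := by
      have hxa : ∀ x k, k < (F x).length + p.length →
          (F x ++ (F a ++ p))[k]? = (F x ++ p)[k]? := by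
        intro x k hk
        rcases lt_or_ge k (F x).length with h3 | h3
        · rw [List.getElem?_append_left h3, List.getElem?_append_left h3]
        · rw [List.getElem?_append_right h3, List.getElem?_append_right h3,
            hp a _ (by omega)]
          rfl
      refine ⟨by rw [List.length_append], by simp only [h1], fun x hx => by
        simp only [h2 x hx, List.length_append], ?_, ?_, ?_, ?_⟩
      · intro x k hk
        simp only [fn]
        rcases eq_or_ne x a with rfl | hx
        · rw [h1]
          exact hxa x k hk
        · rw [h2 x hx, List.append_assoc]
          rcases lt_or_ge k (F a).length with h3 | h3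
          · rw [List.getElem?_append_left h3, List.getElem?_append_left h3]
          · rw [List.getElem?_append_right h3, hxa x _ (by omega),
              List.getElem?_append_right h3, hp x _ (by omega)]
            rfl
      · intro x hx k hk
        simp only [fn]
        rw [h2 x hx, List.append_assoc, List.getElem?_append_right (Nat.le_add_right _ _),
          Nat.add_sub_cancel_left]
        exact hxa x k hk
      · intro k hk
        simp only [fn]
        rw [h1, List.getElem?_append_right (Nat.le_add_right _ _), Nat.add_sub_cancel_left]
      · intro x hx k hk
        simp only [fn]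
        rw [h2 x hx, List.getElem?_append_right (by rw [List.length_append]; omega),
          List.length_append]
        congr 1
        omega
    exact st.good ih

theorem Reach.rich {ζ : α → β} {n : ℕ} {p : List β} {F : α → List β} (h : Reach ζ n p F) (x : α) :
    (palSet (F x ++ p)).ncard = (F x ++ p).length + 1 := by
  apply rich_of_richF
  rw [List.length_append]
  exact h.good.rich x

theorem Reach.length {ζ : α → β} {n : ℕ} {p : List β} {F : α → List β} (h : Reach ζ n p F) :
    n ≤ p.length := by
  induction h with
  | init => exact le_rfl
  | step n p F F' a h h1 h2 ih =>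
    have h3 : 0 < (F a).length := h.good.pos a
    rw [List.length_append]
    omega

/-- the prefix `p` of `F x ++ p` -/
theorem Reach.pre {ζ : α → β} {n : ℕ} {p : List β} {F : α → List β} (h : Reach ζ n p F) (x : α) :
    p <+: F x ++ p := by
  rw [List.prefix_iff_eq_take]
  apply List.ext_getElem?
  intro k
  rcases lt_or_ge k p.length with h1 | h1
  · rw [List.getElem?_take, if_pos h1]
    have h3 := h.good.suf x k h1
    simp only [fn] at h3
    rw [List.getElem?_append_right (Nat.le_add_right _ _), Nat.add_sub_cancel_left] at h3
    exact h3
  · rw [List.getElem?_eq_none h1, List.getElem?_take, if_neg (not_lt.2 h1)]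

theorem Reach.preFlat {ζ : α → β} {n : ℕ} {p : List β} {F : α → List β} (h : Reach ζ n p F)
    (xs : List α) : p <+: xs.flatMap F ++ p := by
  induction xs with
  | nil => simp
  | cons x xs ih =>
    rw [List.flatMap_cons, List.append_assoc]
    obtain ⟨r, hr⟩ := ih
    rw [← hr, ← List.append_assoc]
    exact (h.pre x).trans (List.prefix_append _ _)

/-- short factors of `F(xs)` are factors of some `F x ++ p` -/
theorem Reach.window {ζ : α → β} {n : ℕ} {p : List β} {F : α → List β} (h : Reach ζ n p F)
    {w : List β} (hw : w.length ≤ p.length + 1) (xs : List α) (hi : w <:+: xs.flatMap F) :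
    w = [] ∨ ∃ x, w <:+: F x ++ p := by
  induction xs with
  | nil =>
    left
    simpa using hi
  | cons x xs ih =>
    rw [List.flatMap_cons] at hi
    obtain ⟨A, B, hAB⟩ := hi
    rcases le_or_gt (F x).length A.length with h1 | h1
    · apply ih
      have h2 : F x <+: A := by
        apply List.prefix_of_prefix_length_le (l₃ := F x ++ xs.flatMap F) (List.prefix_append _ _)
          ?_ h1
        rw [← hAB, List.append_assoc]
        exact List.prefix_append _ _
      obtain ⟨A', rfl⟩ := h2
      rw [List.append_assoc, List.append_assoc] at hAB
      have h3 := List.append_cancel_left hAB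
      exact ⟨A', B, by rw [List.append_assoc]; exact h3⟩
    · right
      refine ⟨x, ?_⟩
      have h2 : A ++ w <+: F x ++ (xs.flatMap F ++ p) := by
        rw [← List.append_assoc, ← hAB, List.append_assoc]
        exact List.prefix_append _ _
      have h3 : F x ++ p <+: F x ++ (xs.flatMap F ++ p) :=
        (List.prefix_append_right_inj _).2 (h.preFlat xs)
      have h4 : A ++ w <+: F x ++ p := List.prefix_of_prefix_length_le h2 h3 (by
        rw [List.length_append, List.length_append]
        omega)
      exact (List.suffix_append _ _).isInfix.trans h4.isInfix

end state

end Pool.Agent.Q162.Epi
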